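import Pool.Agent.R133.AF.Loc3

open Complex Filter Topology Set Metric

namespace Pool.Agent.R133.AF

open H370 H370.Loc

/-- local formula for the third order coefficient, all zeros nearby being simple -/
theorem local_formula5 {F : ℂ → ℂ} (hF : GoodL F) : ∃ K : ℝ, 0 < K ∧ ∀ t : ℝ, 3 ≤ t →
    ∀ a : ℂ, a ∈ closedBall (⟨2, t⟩ : ℂ) 1.5 → F a = 0 → deriv F a ≠ 0 →
    (∀ b ∈ closedBall (⟨2, t⟩ : ℂ) 1.8, F b = 0 → deriv F b ≠ 0) →
    ∃ s : Multiset ℂ, s.Nodup ∧ (∀ ρ ∈ s, ρ ∈ closedBall (⟨2, t⟩ : ℂ) 1.8 ∧ F ρ = 0 ∧ ρ ≠ a) ∧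
      (∀ z ∈ closedBall (⟨2, t⟩ : ℂ) 1.8, F z = 0 → z ≠ a → z ∈ s) ∧
      (Multiset.card s : ℝ) ≤ K * Real.log t ∧
      ‖Sf F a + (s.map (fun ρ => 1 / (a - ρ) ^ 2)).sum‖ ≤ K * Real.log t := by
  obtain ⟨K0, hK0, hball⟩ := ball_data hF
  set q : ℝ := Real.log (1.9 / 1.8) with hq
  have hq0 : 0 < q := Real.log_pos (by norm_num)
  set p : ℝ := Real.log (1.8 / (1.9 - 1.8)) with hp
  have hp0 : 0 ≤ p := Real.log_nonneg (by norm_num)
  refine ⟨K0 / q + 10 * (2 * (K0 + K0 / q * p + 1) * 1.7 / (1.8 - 1.7) / (1.7 - 1.6)),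
    by have : 0 ≤ K0 / q * p := by positivity
       have : 0 < K0 / q := by positivity
       have : 0 < 10 * (2 * (K0 + K0 / q * p + 1) * 1.7 / (1.8 - 1.7) / (1.7 - 1.6)) := by
         norm_num
         positivity
       linarith, fun t ht a ha hFa hFa' hsimp => ?_⟩
  obtain ⟨M, hM1, hf, hc, hb, hMf, hlog0, hlog1⟩ := hball t ht
  set c : ℂ := ⟨2, t⟩ with hcdef
  obtain ⟨s, g, hs, hg, hfg, hg0, hcard⟩ := extract (r := 1.8) (R := 1.9) (by norm_num)
    (by norm_num) hM1 hf hc hb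
  have hlogt : 1 ≤ Real.log t := one_le_log ht
  have ha8 : a ∈ closedBall c 1.8 := closedBall_subset_closedBall (by norm_num) ha
  have ha9 : a ∈ closedBall c 1.9 := closedBall_subset_closedBall (by norm_num) ha
  -- a is in s
  have hmem : ∀ z ∈ closedBall c 1.8, F z = 0 → z ∈ s := by
    intro z hz hz0
    by_contra hzs
    have h1 : Pf s z ≠ 0 := Pf_ne_zero fun ρ hρ he => hzs (he ▸ hρ)
    rw [hfg z] at hz0
    rcases mul_eq_zero.1 hz0 with h | h
    · exact h1 h
    · exact hg0 z hz h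
  obtain ⟨s', hs'⟩ := Multiset.exists_cons_of_mem (hmem a ha8 hFa)
  have hfg' : ∀ z, F z = (z - a) * (Pf s' z * g z) := by
    intro z
    rw [hfg z, hs', Pf_cons]
    ring
  have hGan : AnalyticAt ℂ (fun z => Pf s' z * g z) a := ((Pf_diff s').analyticAt a).mul (hg a ha9)
  have hT := taylor_three hGan hfg'
  have hGa : Pf s' a * g a ≠ 0 := by
    have := hT.1
    rw [← this]
    exact hFa'
  have has' : a ∉ s' := by
    intro h
    apply hGa
    obtain ⟨u, hu⟩ := Multiset.exists_cons_of_mem h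
    rw [hu, Pf_cons]
    ring
  have hs'z : ∀ ρ ∈ s', ρ ≠ a := fun ρ hρ he => has' (he ▸ hρ)
  have hcard' : (Multiset.card s' : ℝ) ≤ (Multiset.card s : ℝ) := by
    rw [hs', Multiset.card_cons]
    push_cast
    linarith
  have hcardK : (Multiset.card s : ℝ) ≤ K0 / q * Real.log t := by
    refine hcard.trans ?_
    rw [div_mul_eq_mul_div]
    exact div_le_div_of_nonneg_right hlog1 hq0.le
  -- bounds for g
  have hfc : 0 < ‖F c‖ := norm_pos_iff.2 hc
  set n := Multiset.card s with hn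
  have hRr0 : (0 : ℝ) < 1.9 - 1.8 := by norm_num
  have hgsphere : ∀ w ∈ sphere c 1.9, ‖g w‖ ≤ M / (1.9 - 1.8) ^ n := by
    intro w hw
    have hwR := sphere_subset_closedBall hw
    have h1 : (1.9 - 1.8 : ℝ) ^ n ≤ ‖Pf s w‖ := Pf_norm_ge hRr0.le fun ρ hρ => by
      have h2 := (hs ρ hρ).1
      rw [mem_closedBall, dist_eq_norm] at h2
      rw [mem_sphere, dist_eq_norm] at hw
      have h3 : ‖w - c‖ ≤ ‖w - ρ‖ + ‖ρ - c‖ := by
        calc ‖w - c‖ = ‖(w - ρ) + (ρ - c)‖ := by congr 1; ring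
          _ ≤ _ := norm_add_le _ _
      linarith
    rw [le_div_iff₀ (by positivity)]
    calc ‖g w‖ * (1.9 - 1.8) ^ n ≤ ‖g w‖ * ‖Pf s w‖ :=
          mul_le_mul_of_nonneg_left h1 (norm_nonneg _)
      _ = ‖F w‖ := by rw [hfg w, norm_mul, mul_comm]
      _ ≤ M := hb w hwR
  have hgball : ∀ w ∈ closedBall c 1.9, ‖g w‖ ≤ M / (1.9 - 1.8) ^ n := by
    intro w hw
    refine Complex.norm_le_of_forall_mem_frontier_norm_le (U := ball c 1.9) isBounded_ball ?_ ?_ ?_
    · apply DifferentiableOn.diffContOnCl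
      rw [closure_ball c (by norm_num)]
      exact fun x hx => (hg x hx).differentiableAt.differentiableWithinAt
    · intro x hx
      rw [frontier_ball c (by norm_num)] at hx
      exact hgsphere x hx
    · rwa [closure_ball c (by norm_num)]
  have hgc : ‖F c‖ / 1.8 ^ n ≤ ‖g c‖ := by
    rw [div_le_iff₀ (by positivity)]
    have h1 : ‖Pf s c‖ ≤ 1.8 ^ n := Pf_norm_le fun ρ hρ => by
      have h2 := (hs ρ hρ).1
      rw [mem_closedBall, dist_eq_norm, norm_sub_rev] at h2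
      exact h2
    calc ‖F c‖ = ‖g c‖ * ‖Pf s c‖ := by rw [hfg c, norm_mul, mul_comm]
      _ ≤ ‖g c‖ * 1.8 ^ n := mul_le_mul_of_nonneg_left h1 (norm_nonneg _)
  set B : ℝ := Real.log (M / ‖F c‖) + n * Real.log (1.8 / (1.9 - 1.8)) with hB
  have hB0 : 0 ≤ B := by positivity
  have hexpB : Real.exp B = M / ‖F c‖ * (1.8 / (1.9 - 1.8)) ^ n := by
    rw [hB, Real.exp_add, Real.exp_log (by positivity), Real.exp_nat_mul,
      Real.exp_log (by positivity)]
  have hgb : ∀ w ∈ closedBall c 1.8, ‖g w‖ ≤ Real.exp B * ‖g c‖ := by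
    intro w hw
    refine (hgball w (closedBall_subset_closedBall (by norm_num) hw)).trans ?_
    rw [hexpB]
    calc M / (1.9 - 1.8) ^ n = M / ‖F c‖ * (1.8 / (1.9 - 1.8)) ^ n * (‖F c‖ / 1.8 ^ n) := by
          rw [div_pow]; field_simp
      _ ≤ _ := mul_le_mul_of_nonneg_left hgc (by positivity)
  have hlg : ∀ z ∈ closedBall c 1.6, ‖logDeriv g z‖ ≤
      2 * (B + 1) * 1.7 / (1.8 - 1.7) / (1.7 - 1.6) := fun z hz =>
    logDeriv_zero_free (r1 := 1.7) (by norm_num) (by norm_num) (by norm_num) hB0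
      (hg.mono (closedBall_subset_closedBall (by norm_num))) hg0 hgb hz
  have hBle : B + 1 ≤ (K0 + K0 / q * p + 1) * Real.log t := by
    have h1 : (n : ℝ) * p ≤ K0 / q * Real.log t * p := mul_le_mul_of_nonneg_right hcardK hp0
    rw [hB]
    nlinarith
  -- Cauchy estimate for the derivative of logDeriv g at a
  have hsub : closedBall a 0.1 ⊆ closedBall c 1.6 := by
    intro w hw
    rw [mem_closedBall, dist_eq_norm] at hw ha ⊢
    calc ‖w - c‖ = ‖(w - a) + (a - c)‖ := by congr 1; ring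
      _ ≤ ‖w - a‖ + ‖a - c‖ := norm_add_le _ _
      _ ≤ 1.6 := by linarith
  have han : ∀ w ∈ closedBall c 1.8, AnalyticAt ℂ (logDeriv g) w := fun w hw =>
    (hg w (closedBall_subset_closedBall (by norm_num) hw)).deriv.div
      (hg w (closedBall_subset_closedBall (by norm_num) hw)) (hg0 w hw)
  have hcau := Complex.norm_deriv_le_of_forall_mem_sphere_norm_le (c := a) (R := 0.1)
    (C := 2 * (B + 1) * 1.7 / (1.8 - 1.7) / (1.7 - 1.6)) (f := logDeriv g) (by norm_num)
    (by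
      apply DifferentiableOn.diffContOnCl
      rw [closure_ball a (by norm_num)]
      exact fun w hw => (han w (closedBall_subset_closedBall (by norm_num)
        (hsub hw))).differentiableAt.differentiableWithinAt)
    (fun w hw => hlg w (hsub (sphere_subset_closedBall hw)))
  -- the identity
  have hPa : Pf s' a ≠ 0 := left_ne_zero_of_mul hGa
  have hga : g a ≠ 0 := hg0 a ha8
  have hev : logDeriv (fun z => Pf s' z * g z) =ᶠ[𝓝 a]
      fun w => logDeriv (Pf s') w + logDeriv g w := by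
    have c1 : ∀ᶠ w in 𝓝 a, Pf s' w ≠ 0 := (Pf_diff s' a).continuousAt.eventually_ne hPa
    have c2 : ∀ᶠ w in 𝓝 a, g w ≠ 0 := (hg a ha9).continuousAt.eventually_ne hga
    filter_upwards [c1, c2, (hg a ha9).eventually_analyticAt] with w h1 h2 h3
    exact logDeriv_mul w h1 h2 (Pf_diff s' w) h3.differentiableAt
  have hSf : Sf F a = -(s'.map (fun ρ => 1 / (a - ρ) ^ 2)).sum + deriv (logDeriv g) a := by
    rw [Sf_eq hGan hGa hfg', hev.deriv_eq]
    have h1 := Pf_logDeriv_deriv s' (z := a) (fun ρ hρ he => hs'z ρ hρ he.symm)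
    have h2 := (han a ha8).differentiableAt.hasDerivAt
    exact (h1.add h2).deriv
  have hnd : s'.Nodup := by
    rw [Multiset.nodup_iff_ne_cons_cons]
    intro b u hbu
    have hb1 : b ∈ s' := by rw [hbu]; exact Multiset.mem_cons_self b _
    have hb2 : b ∈ s := by rw [hs']; exact Multiset.mem_cons_of_mem hb1
    obtain ⟨hb3, hb4⟩ := hs b hb2
    have hb5 : AnalyticAt ℂ (fun z => (z - a) * ((z - b) * (Pf u z * g z))) b :=
      (analyticAt_id.sub analyticAt_const).mul ((analyticAt_id.sub analyticAt_const).mul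
        (((Pf_diff u).analyticAt b).mul
          (hg b (closedBall_subset_closedBall (by norm_num) hb3))))
    have hb6 := (taylor_three (f := F) hb5 (fun z => by
      rw [hfg' z, hbu, Pf_cons, Pf_cons]; ring)).1
    exact hsimp b hb3 hb4 (by rw [hb6]; ring)
  refine ⟨s', hnd, fun ρ hρ => ?_, fun z hz hz0 hza => ?_, ?_, ?_⟩
  · have h1 : ρ ∈ s := by rw [hs']; exact Multiset.mem_cons_of_mem hρ
    exact ⟨(hs ρ h1).1, (hs ρ h1).2, hs'z ρ hρ⟩
  · have h1 := hmem z hz hz0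
    rw [hs', Multiset.mem_cons] at h1
    rcases h1 with h1 | h1
    · exact absurd h1 hza
    · exact h1
  · have h1 := hcard'.trans hcardK
    have h2 : 0 ≤ 10 * (2 * (K0 + K0 / q * p + 1) * 1.7 / (1.8 - 1.7) / (1.7 - 1.6)) *
        Real.log t := by
      have : 0 ≤ K0 / q * p := by positivity
      have h3 : (0 : ℝ) ≤ 10 * (2 * (K0 + K0 / q * p + 1) * 1.7 / (1.8 - 1.7) / (1.7 - 1.6)) := by
        norm_num
        positivity
      positivity
    rw [add_mul]
    linarith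
  · have e1 : Sf F a + (s'.map (fun ρ => 1 / (a - ρ) ^ 2)).sum = deriv (logDeriv g) a := by
      rw [hSf]; ring
    rw [e1]
    refine hcau.trans ?_
    have h1 : 2 * (B + 1) * 1.7 / (1.8 - 1.7) / (1.7 - 1.6) / 0.1 ≤
        10 * (2 * (K0 + K0 / q * p + 1) * 1.7 / (1.8 - 1.7) / (1.7 - 1.6)) * Real.log t := by
      norm_num
      nlinarith
    have h2 : 0 ≤ K0 / q * Real.log t := by positivity
    rw [add_mul]
    linarith

end Pool.Agent.R133.AF
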