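import Mathlib

open Filter

namespace Pool.Agent.R133.AF

theorem one_side {ι : Type*} (S : Finset ι) (x : ι → ℝ) (d : ℝ) (hd : 0 < d)
    (h0 : ∀ i ∈ S, d ≤ x i) (h2 : ∀ i ∈ S, ∀ j ∈ S, i ≠ j → d ≤ |x i - x j|) :
    ∑ i ∈ S, 1 / (x i) ^ 2 ≤ Real.pi ^ 2 / (6 * d ^ 2) := by
  classical
  set k : ι → ℕ := fun i => ⌊x i / d⌋₊ with hk
  have hinj : Set.InjOn k S := by
    intro i hi j hj hij
    by_contra hne
    have h3 := h2 i hi j hj hne
    have a1 : (k i : ℝ) ≤ x i / d := Nat.floor_le (div_nonneg (hd.le.trans (h0 i hi)) hd.le)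
    have a2 : x i / d < k i + 1 := Nat.lt_floor_add_one _
    have b1 : (k j : ℝ) ≤ x j / d := Nat.floor_le (div_nonneg (hd.le.trans (h0 j hj)) hd.le)
    have b2 : x j / d < k j + 1 := Nat.lt_floor_add_one _
    rw [hij] at a1 a2
    rw [le_div_iff₀ hd] at a1 b1
    rw [div_lt_iff₀ hd] at a2 b2
    have : |x i - x j| < d := by
      rw [abs_lt]
      constructor <;> nlinarith
    linarith
  have hterm : ∀ i ∈ S, 1 / (x i) ^ 2 ≤ 1 / d ^ 2 * (1 / (k i : ℝ) ^ 2) := by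
    intro i hi
    have a1 : (k i : ℝ) ≤ x i / d := Nat.floor_le (div_nonneg (hd.le.trans (h0 i hi)) hd.le)
    have a3 : 1 ≤ k i := by
      rw [hk]
      apply Nat.le_floor
      rw [Nat.cast_one, le_div_iff₀ hd, one_mul]
      exact h0 i hi
    have a4 : (1 : ℝ) ≤ k i := by exact_mod_cast a3
    rw [le_div_iff₀ hd] at a1
    have a5 : 0 < (k i : ℝ) * d := by positivity
    have a6 : ((k i : ℝ) * d) ^ 2 ≤ (x i) ^ 2 := pow_le_pow_left₀ a5.le a1 2
    calc 1 / (x i) ^ 2 ≤ 1 / ((k i : ℝ) * d) ^ 2 := one_div_le_one_div_of_le (by positivity) a6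
      _ = 1 / d ^ 2 * (1 / (k i : ℝ) ^ 2) := by field_simp
  calc ∑ i ∈ S, 1 / (x i) ^ 2 ≤ ∑ i ∈ S, 1 / d ^ 2 * (1 / (k i : ℝ) ^ 2) :=
        Finset.sum_le_sum hterm
    _ = 1 / d ^ 2 * ∑ m ∈ S.image k, 1 / (m : ℝ) ^ 2 := by
        rw [← Finset.mul_sum, Finset.sum_image hinj]
    _ ≤ 1 / d ^ 2 * (Real.pi ^ 2 / 6) := by
        apply mul_le_mul_of_nonneg_left _ (by positivity)
        exact sum_le_hasSum _ (fun m _ => by positivity) hasSum_zeta_two
    _ = _ := by field_simp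

theorem spacing_sum {ι : Type*} (S : Finset ι) (x : ι → ℝ) (t d : ℝ) (hd : 0 < d)
    (h0 : ∀ i ∈ S, d ≤ |t - x i|) (h2 : ∀ i ∈ S, ∀ j ∈ S, i ≠ j → d ≤ |x i - x j|) :
    ∑ i ∈ S, 1 / (t - x i) ^ 2 ≤ Real.pi ^ 2 / (3 * d ^ 2) := by
  classical
  rw [← Finset.sum_filter_add_sum_filter_not S (fun i => t < x i)]
  have e1 := one_side (S.filter (fun i => t < x i)) (fun i => x i - t) d hd (by
    intro i hi
    rw [Finset.mem_filter] at hi
    have := h0 i hi.1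
    rwa [abs_sub_comm, abs_of_pos (by linarith [hi.2])] at this) (by
    intro i hi j hj hij
    rw [Finset.mem_filter] at hi hj
    have := h2 i hi.1 j hj.1 hij
    rwa [sub_sub_sub_cancel_right])
  have e2 := one_side (S.filter (fun i => ¬ t < x i)) (fun i => t - x i) d hd (by
    intro i hi
    rw [Finset.mem_filter, not_lt] at hi
    have := h0 i hi.1
    rwa [abs_of_nonneg (by linarith [hi.2])] at this) (by
    intro i hi j hj hij
    rw [Finset.mem_filter] at hi hj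
    have := h2 i hi.1 j hj.1 hij
    rwa [sub_sub_sub_cancel_left, abs_sub_comm])
  have e3 : ∑ i ∈ S.filter (fun i => t < x i), 1 / (t - x i) ^ 2 =
      ∑ i ∈ S.filter (fun i => t < x i), 1 / (x i - t) ^ 2 :=
    Finset.sum_congr rfl fun i _ => by congr 1; ring
  rw [e3]
  have e4 : Real.pi ^ 2 / (3 * d ^ 2) = Real.pi ^ 2 / (6 * d ^ 2) + Real.pi ^ 2 / (6 * d ^ 2) := by
    field_simp; ring
  rw [e4]
  exact add_le_add e1 e2

end Pool.Agent.R133.AF
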