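import Pool.Agent.R133.AF.Fin
import Pool.Agent.R133.AF.Loc5
import Pool.Agent.R133.AF.Spc

open Complex Filter Topology Set Metric SG

namespace Pool.Agent.R133.AF

theorem log_two_mul_le {T : ℝ} (hT : 2 ≤ T) : Real.log (2 * T) ≤ 2 * Real.log T := by
  have : Real.log (2 * T) ≤ Real.log (T ^ 2) := Real.log_le_log (by positivity) (by nlinarith)
  rwa [Real.log_pow] at this

/-- if all spacings in `[T, 2T]` exceed `c · 2π / log T` then the third order coefficients are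
bounded by `(1/(12 c^2) + ε) (log T)^2` -/
theorem crit_sep (c ε : ℝ) (hc : 0 < c) (hε : 0 < ε) : ∃ T0 : ℝ, ∀ T : ℝ, T0 ≤ T →
    Sep (c * (2 * Real.pi / Real.log T)) T →
    ∀ s : ℂ, riemannZeta s = 0 → 0 < s.re → s.re < 1 → T + 2 ≤ s.im → s.im ≤ 2 * T - 2 →
      s.re = 1 / 2 ∧ deriv riemannZeta s ≠ 0 ∧
        ‖Sf riemannZeta s‖ ≤ (1 / (12 * c ^ 2) + ε) * Real.log T ^ 2 := by
  obtain ⟨K, hK, hloc⟩ := local_formula5 H370.good_zeta
  obtain ⟨T1, hT1⟩ := (Real.tendsto_log_atTop.eventually_ge_atTop (2 * K / ε)).exists_forall_of_atTop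
  refine ⟨max T1 3, fun T hT hsep s h0 h1 h2 h3 h4 => ?_⟩
  have hTT1 : T1 ≤ T := (le_max_left _ _).trans hT
  have hT3 : 3 ≤ T := (le_max_right _ _).trans hT
  have hlog : 0 < Real.log T := Real.log_pos (by linarith)
  have hpi := Real.pi_pos
  have hre := hsep.line s h1 h2 (by linarith) (by linarith) h0
  have hd := hsep.simple s h1 h2 (by linarith) (by linarith) h0
  refine ⟨hre, hd, ?_⟩
  obtain ⟨t, htdef⟩ : ∃ t : ℝ, t = s.im := ⟨_, rfl⟩
  have hs : s = ⟨1 / 2, t⟩ := Complex.ext hre htdef.symm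
  rw [← htdef] at h3 h4
  have ht3 : 3 ≤ t := by linarith
  rw [hs] at h0 hd ⊢
  -- coordinates in the ball
  have hball : ∀ b ∈ closedBall (⟨2, t⟩ : ℂ) 1.8, riemannZeta b = 0 →
      0 < b.re ∧ b.re < 1 ∧ T ≤ b.im ∧ b.im ≤ 2 * T := by
    intro b hb hb0
    obtain ⟨e1, e2, e3⟩ := in_strip ht3 hb hb0
    rw [mem_closedBall, dist_eq_norm] at hb
    have h2 := (Complex.abs_im_le_norm (b - ⟨2, t⟩)).trans hb
    simp only [sub_im] at h2
    rw [abs_le] at h2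
    refine ⟨e1, e2, by linarith, ?_⟩
    norm_num at h2 ⊢
    linarith [h2.2]
  obtain ⟨m, hnd, hm1, hm2, hm3, hm4⟩ := hloc t ht3 ⟨1 / 2, t⟩ (a_mem t) h0 hd (by
    intro b hb hb0
    obtain ⟨e1, e2, e3, e4⟩ := hball b hb hb0
    exact hsep.simple b e1 e2 e3 e4 hb0)
  set d : ℝ := c * (2 * Real.pi / Real.log T) with hddef
  have hd0 : 0 < d := by positivity
  have hform : ∀ ρ ∈ m, ρ.re = 1 / 2 ∧ ρ.im ≠ t := by
    intro ρ hρ
    obtain ⟨g1, g2, g3⟩ := hm1 ρ hρ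
    obtain ⟨e1, e2, e3, e4⟩ := hball ρ g1 g2
    have e5 := hsep.line ρ e1 e2 e3 e4 g2
    exact ⟨e5, fun he => g3 (Complex.ext e5 he)⟩
  have hsum : ‖(m.map (fun ρ => 1 / ((⟨1 / 2, t⟩ : ℂ) - ρ) ^ 2)).sum‖ ≤
      Real.pi ^ 2 / (3 * d ^ 2) := by
    classical
    have e1 : (m.map (fun ρ => 1 / ((⟨1 / 2, t⟩ : ℂ) - ρ) ^ 2)).sum =
        ∑ ρ ∈ m.toFinset, 1 / ((⟨1 / 2, t⟩ : ℂ) - ρ) ^ 2 := by
      rw [Finset.sum, Multiset.toFinset_val, Multiset.dedup_eq_self.2 hnd]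
    rw [e1]
    refine (norm_sum_le _ _).trans ?_
    have e2 : ∀ ρ ∈ m.toFinset, ‖1 / ((⟨1 / 2, t⟩ : ℂ) - ρ) ^ 2‖ = 1 / (t - ρ.im) ^ 2 := by
      intro ρ hρ
      rw [Multiset.mem_toFinset] at hρ
      obtain ⟨f1, f2⟩ := hform ρ hρ
      have f3 : ρ = ⟨1 / 2, ρ.im⟩ := Complex.ext f1 rfl
      have f4 := inv_sq_eq t ρ.im (fun h => f2 h.symm)
      rw [← f3] at f4
      rw [f4, Complex.norm_real, norm_neg, Real.norm_of_nonneg (by positivity)]
    rw [Finset.sum_congr rfl e2]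
    apply spacing_sum m.toFinset (fun ρ => ρ.im) t d hd0
    · intro ρ hρ
      rw [Multiset.mem_toFinset] at hρ
      obtain ⟨g1, g2, g3⟩ := hm1 ρ hρ
      obtain ⟨e1, e2, e3, e4⟩ := hball ρ g1 g2
      have := hsep.sep ⟨1 / 2, t⟩ ρ (by norm_num) (by norm_num) (by simp; linarith)
        (by simp; linarith) h0 e1 e2 e3 e4 g2 (fun h => g3 h.symm)
      exact this.le
    · intro ρ hρ ρ' hρ' hne
      rw [Multiset.mem_toFinset] at hρ hρ'
      obtain ⟨g1, g2, g3⟩ := hm1 ρ hρ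
      obtain ⟨e1, e2, e3, e4⟩ := hball ρ g1 g2
      obtain ⟨g1', g2', g3'⟩ := hm1 ρ' hρ'
      obtain ⟨e1', e2', e3', e4'⟩ := hball ρ' g1' g2'
      exact (hsep.sep ρ ρ' e1 e2 e3 e4 g2 e1' e2' e3' e4' g2' hne).le
  have hlogt : Real.log t ≤ 2 * Real.log T :=
    (Real.log_le_log (by linarith) (by linarith)).trans (log_two_mul_le (by linarith))
  have hKt : K * Real.log t ≤ ε * Real.log T ^ 2 := by
    have g1 := hT1 T hTT1
    rw [div_le_iff₀ hε] at g1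
    have g2 : K * Real.log t ≤ K * (2 * Real.log T) := mul_le_mul_of_nonneg_left hlogt hK.le
    nlinarith
  set X := (m.map (fun ρ => 1 / ((⟨1 / 2, t⟩ : ℂ) - ρ) ^ 2)).sum with hX
  have hfin : Real.pi ^ 2 / (3 * d ^ 2) = 1 / (12 * c ^ 2) * Real.log T ^ 2 := by
    rw [hddef]
    field_simp
    ring
  calc ‖Sf riemannZeta ⟨1 / 2, t⟩‖ = ‖(Sf riemannZeta ⟨1 / 2, t⟩ + X) - X‖ := by
        congr 1; ring
    _ ≤ ‖Sf riemannZeta ⟨1 / 2, t⟩ + X‖ + ‖X‖ := norm_sub_le _ _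
    _ ≤ K * Real.log t + Real.pi ^ 2 / (3 * d ^ 2) := add_le_add hm4 hsum
    _ ≤ (1 / (12 * c ^ 2) + ε) * Real.log T ^ 2 := by rw [hfin]; linarith

theorem crit (c ε : ℝ) (hc : 0 < c) (hε : 0 < ε) : ∃ T0 : ℝ, ∀ T : ℝ, T0 ≤ T →
    (∃ n : ℕ, 1 ≤ n ∧ T ≤ ord n ∧ ord (n + 1) ≤ 2 * T ∧
      ord (n + 1) - ord n ≤ c * (2 * Real.pi / Real.log T)) ∨
    ∀ s : ℂ, riemannZeta s = 0 → 0 < s.re → s.re < 1 → T + 2 ≤ s.im → s.im ≤ 2 * T - 2 →
      s.re = 1 / 2 ∧ deriv riemannZeta s ≠ 0 ∧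
        ‖Sf riemannZeta s‖ ≤ (1 / (12 * c ^ 2) + ε) * Real.log T ^ 2 := by
  obtain ⟨T0, hT0⟩ := crit_sep c ε hc hε
  refine ⟨max T0 2, fun T hT => ?_⟩
  have hT2 : 2 ≤ T := (le_max_right _ _).trans hT
  have hlog : 0 < Real.log T := Real.log_pos (by linarith)
  have hpi := Real.pi_pos
  by_cases h : Sep (c * (2 * Real.pi / Real.log T)) T
  · exact Or.inr (hT0 T ((le_max_left _ _).trans hT) h)
  · exact Or.inl (gap_of_not_sep (by linarith) (by positivity) h)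

/-- window version of `Good` -/
def WGood (A B : ℝ) : Prop :=
  ∀ s : ℂ, riemannZeta s = 0 → 0 < s.re → s.re < 1 → A ≤ s.im → s.im ≤ B →
    s.re = 1 / 2 ∧ deriv riemannZeta s ≠ 0

theorem simple_of_deriv {s : ℂ} (h0 : riemannZeta s = 0) (hs : 0 < s.im)
    (hd : deriv riemannZeta s ≠ 0) : zmult s ≤ 1 := by
  have hs1 : s ≠ 1 := by intro h; rw [h] at hs; simp at hs
  have ha := zeta_an hs1
  have h2 := ha.analyticOrderAt_deriv_add_one
  have h3 : (fun z => riemannZeta z - riemannZeta s) = riemannZeta := by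
    funext z; rw [h0, sub_zero]
  rw [h3] at h2
  have h4 : analyticOrderAt (deriv riemannZeta) s = 0 :=
    ha.deriv.analyticOrderAt_eq_zero.mpr hd
  rw [h4, zero_add] at h2
  have h5 : zmult s = 1 := by
    unfold zmult analyticOrderNatAt
    rw [← h2]
    rfl
  exact h5.le

theorem WGood.ord_lt {A B : ℝ} (h : WGood A B) {n : ℕ} (hn : 1 ≤ n) (hA : A ≤ ord n)
    (hB : ord n ≤ B) : riemannZeta ⟨1 / 2, ord n⟩ = 0 ∧ deriv riemannZeta ⟨1 / 2, ord n⟩ ≠ 0 ∧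
      ord n < ord (n + 1) := by
  have hz : riemannZeta ⟨1 / 2, ord n⟩ = 0 ∧ deriv riemannZeta ⟨1 / 2, ord n⟩ ≠ 0 := by
    obtain ⟨s, h0, h1, h2, h3⟩ := ord_is_zero hn
    obtain ⟨h4, h5⟩ := h s h0 h1 h2 (h3 ▸ hA) (h3 ▸ hB)
    have : s = ⟨1 / 2, ord n⟩ := Complex.ext h4 h3
    rw [this] at h0 h5
    exact ⟨h0, h5⟩
  refine ⟨hz.1, hz.2, ?_⟩
  rcases (ord_mono hn (Nat.le_succ n)).lt_or_eq with h1 | h1
  · exact h1
  exfalso
  obtain ⟨t', ht', he⟩ := NZ_left (ord n)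
  have h2 : ∑ᶠ s ∈ {s : ℂ | riemannZeta s = 0 ∧ 0 < s.re ∧ s.re < 1 ∧ 0 < s.im ∧
      s.im = ord n}, zmult s ≤ 1 := by
    have hsub : {s : ℂ | riemannZeta s = 0 ∧ 0 < s.re ∧ s.re < 1 ∧ 0 < s.im ∧
      s.im = ord n} = {(⟨1 / 2, ord n⟩ : ℂ)} := by
      ext s
      constructor
      · rintro ⟨a1, a2, a3, a4, a5⟩
        exact Complex.ext (h s a1 a2 a3 (a5 ▸ hA) (a5 ▸ hB)).1 a5
      · intro hs
        rw [Set.mem_singleton_iff] at hs
        rw [hs]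
        exact ⟨hz.1, by norm_num, by norm_num, ord_pos hn, rfl⟩
    rw [hsub, finsum_mem_singleton]
    exact simple_of_deriv hz.1 (ord_pos hn) hz.2
  have h3 : n + 1 ≤ NZ (ord n) := (ord_le_iff (by omega) _).1 h1.ge
  have h4 : n ≤ NZ t' := by
    rw [he] at h3
    omega
  have := (ord_le_iff hn t').2 h4
  linarith

/-- converse: small third order coefficients force the spacings to be large -/
theorem crit_conv (L ε : ℝ) (hL : 0 ≤ L) (hε : 0 < ε) : ∃ T0 : ℝ, ∀ T : ℝ, T0 ≤ T →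
    (∀ s : ℂ, riemannZeta s = 0 → 0 < s.re → s.re < 1 → T - 2 ≤ s.im → s.im ≤ 2 * T + 2 →
      s.re = 1 / 2 ∧ deriv riemannZeta s ≠ 0 ∧ ‖Sf riemannZeta s‖ ≤ L * Real.log T ^ 2) →
    ∀ n : ℕ, 1 ≤ n → T ≤ ord n → ord (n + 1) ≤ 2 * T →
      1 ≤ (L + ε) * ((ord (n + 1) - ord n) * Real.log T) ^ 2 := by
  obtain ⟨K, hK, hloc⟩ := local_formula H370.good_zeta
  obtain ⟨T1, hT1⟩ := (Real.tendsto_log_atTop.eventually_ge_atTop
    (max (2 * K / ε) (2 / ε + 2))).exists_forall_of_atTop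
  refine ⟨max T1 3, fun T hT hall n hn hTn hTn' => ?_⟩
  have hTT1 : T1 ≤ T := (le_max_left _ _).trans hT
  have hT3 : 3 ≤ T := (le_max_right _ _).trans hT
  have hlogT := hT1 T hTT1
  have hlog : 0 < Real.log T := Real.log_pos (by linarith)
  have hl1 : 2 * K / ε ≤ Real.log T := (le_max_left _ _).trans hlogT
  have hl2 : 2 / ε + 2 ≤ Real.log T := (le_max_right _ _).trans hlogT
  have hW : WGood (T - 2) (2 * T + 2) := fun s h0 h1 h2 h3 h4 =>
    ⟨(hall s h0 h1 h2 h3 h4).1, (hall s h0 h1 h2 h3 h4).2.1⟩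
  have hmono := ord_mono hn (Nat.le_succ n)
  obtain ⟨hz, hd, hlt⟩ := hW.ord_lt hn (by linarith) (by linarith)
  obtain ⟨hz', hd', -⟩ := hW.ord_lt (n := n + 1) (by omega) (by linarith) (by linarith)
  set t := ord n with htdef
  have ht3 : 3 ≤ t := by linarith
  have hS : ‖Sf riemannZeta ⟨1 / 2, t⟩‖ ≤ L * Real.log T ^ 2 :=
    (hall ⟨1 / 2, t⟩ hz (by norm_num) (by norm_num) (by simp; linarith) (by simp; linarith)).2.2
  have hδ : 0 < ord (n + 1) - t := by linarith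
  by_cases hbig : ord (n + 1) - t ≤ 0.9
  swap
  · push Not at hbig
    have h1 : 1 ≤ ((ord (n + 1) - t) * Real.log T) := by
      have : (2 : ℝ) ≤ Real.log T := by
        have : 0 ≤ 2 / ε := by positivity
        linarith
      norm_num at hbig
      nlinarith
    have h3 : 1 ≤ ε * (((ord (n + 1) - t) * Real.log T)) := by
      have e1 : 2 ≤ ε * Real.log T := by
        have : 2 / ε ≤ Real.log T := by linarith
        rw [div_le_iff₀ hε] at this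
        linarith
      norm_num at hbig
      have e2 : 0 < ε * Real.log T := by positivity
      nlinarith
    have h4 : 0 ≤ ((ord (n + 1) - t) * Real.log T) := by positivity
    have h5 : 0 ≤ L * ((ord (n + 1) - t) * Real.log T) ^ 2 := by positivity
    nlinarith
  · obtain ⟨s, hs1, hs2, hs3, hs4⟩ := hloc t ht3 ⟨1 / 2, t⟩ (a_mem t) hz hd
    have hform : ∀ ρ ∈ s, ∃ u : ℝ, ρ = ⟨1 / 2, u⟩ ∧ u ≠ t := by
      intro ρ hρ
      obtain ⟨g1, g2, g3⟩ := hs1 ρ hρ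
      obtain ⟨e1, e2, e3⟩ := in_strip ht3 g1 g2
      rw [mem_closedBall, dist_eq_norm] at g1
      have h2 := (Complex.abs_im_le_norm (ρ - ⟨2, t⟩)).trans g1
      simp only [sub_im] at h2
      rw [abs_le] at h2
      norm_num at h2
      have e4 := (hW ρ g2 e1 e2 (by linarith) (by linarith [h2.2])).1
      refine ⟨ρ.im, Complex.ext e4 rfl, ?_⟩
      intro he
      exact g3 (Complex.ext e4 he)
    have hxs : (⟨1 / 2, ord (n + 1)⟩ : ℂ) ∈ s := by
      apply hs2 _ _ hz'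
      · intro he
        have := congrArg Complex.im he
        simp only at this
        linarith
      · rw [mem_closedBall, dist_eq_norm]
        rw [Complex.norm_def, Complex.normSq_apply]
        apply Real.sqrt_le_iff.2
        refine ⟨by norm_num, ?_⟩
        simp only [sub_re, sub_im]
        nlinarith
    have h1 := msum_re_ge s (fun ρ => -(1 / ((⟨1 / 2, t⟩ : ℂ) - ρ) ^ 2)) (by
      intro ρ hρ
      obtain ⟨u, rfl, hu⟩ := hform ρ hρ
      rw [inv_sq_eq t u hu.symm, ← Complex.ofReal_neg, Complex.ofReal_re, neg_neg]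
      positivity) hxs
    rw [inv_sq_eq t _ hlt.ne, ← Complex.ofReal_neg, Complex.ofReal_re, neg_neg] at h1
    have h2 : (s.map (fun ρ => -(1 / ((⟨1 / 2, t⟩ : ℂ) - ρ) ^ 2))).sum =
        -(s.map (fun ρ => 1 / ((⟨1 / 2, t⟩ : ℂ) - ρ) ^ 2)).sum := Multiset.sum_map_neg
    rw [h2] at h1
    set X := (s.map (fun ρ => 1 / ((⟨1 / 2, t⟩ : ℂ) - ρ) ^ 2)).sum with hX
    have h3 : (-X).re ≤ ‖X‖ := by
      have := Complex.re_le_norm (-X)
      rwa [norm_neg] at this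
    have h4 : ‖X‖ ≤ ‖Sf riemannZeta ⟨1 / 2, t⟩‖ + K * Real.log t := by
      calc ‖X‖ = ‖(Sf riemannZeta ⟨1 / 2, t⟩ + X) - Sf riemannZeta ⟨1 / 2, t⟩‖ := by
            congr 1; ring
        _ ≤ ‖Sf riemannZeta ⟨1 / 2, t⟩ + X‖ + ‖Sf riemannZeta ⟨1 / 2, t⟩‖ := norm_sub_le _ _
        _ ≤ _ := by linarith
    have h5 : (t - ord (n + 1)) ^ 2 = (ord (n + 1) - t) ^ 2 := by ring
    rw [h5] at h1
    have hlogt : Real.log t ≤ 2 * Real.log T :=
      (Real.log_le_log (by linarith) (by linarith)).trans (log_two_mul_le (by linarith))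
    have hKt : K * Real.log t ≤ ε * Real.log T ^ 2 := by
      rw [div_le_iff₀ hε] at hl1
      have g2 : K * Real.log t ≤ K * (2 * Real.log T) := mul_le_mul_of_nonneg_left hlogt hK.le
      nlinarith
    have h6 : 1 / (ord (n + 1) - t) ^ 2 ≤ (L + ε) * Real.log T ^ 2 := by
      have : (L + ε) * Real.log T ^ 2 = L * Real.log T ^ 2 + ε * Real.log T ^ 2 := by ring
      rw [this]
      linarith
    rw [div_le_iff₀ (by positivity)] at h6
    rw [mul_pow]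
    linarith

end Pool.Agent.R133.AF
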