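import Mathlib

open Filter Topology

namespace Pool.Agent.R133.AF

theorem ereal_main (a : ℕ → EReal) (b : ℕ → ℝ)
    (h1 : ∀ y' y : ℝ, 0 < y' → y' < y → (∀ᶠ n in atTop, b n ≤ y') →
      ∀ᶠ n in atTop, ((-y : ℝ) : EReal) ≤ a n)
    (h2 : ∀ y' y : ℝ, 0 < y' → y' < y → (∀ᶠ n in atTop, ((-y' : ℝ) : EReal) ≤ a n) →
      ∀ᶠ n in atTop, b n ≤ y)
    (hb : ∀ n, 0 ≤ b n) (ha : ∃ᶠ n in atTop, a n ≤ 0) :
    liminf a atTop = - limsup (fun n => ((b n : ℝ) : EReal)) atTop := by
  have hL : liminf a atTop ≤ 0 := liminf_le_of_frequently_le' ha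
  have hU : (0 : EReal) ≤ limsup (fun n => ((b n : ℝ) : EReal)) atTop :=
    le_limsup_of_frequently_le' (Eventually.frequently (Eventually.of_forall
      fun n => by exact_mod_cast hb n))
  have k1 : limsup (fun n => ((b n : ℝ) : EReal)) atTop ≤ - liminf a atTop := by
    rw [← EReal.le_of_forall_lt_iff_le]
    intro z hz
    have hz' : ((-z : ℝ) : EReal) < liminf a atTop := by
      rw [EReal.coe_neg]
      exact EReal.neg_lt_comm.1 hz
    obtain ⟨w, hw1, hw2⟩ := EReal.exists_between_coe_real hz'
    have hw0 : w < 0 := by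
      have := hw2.trans_le hL
      exact_mod_cast this
    have hwz : -w < z := by
      have : -z < w := by exact_mod_cast hw1
      linarith
    have hev := eventually_lt_of_lt_liminf hw2
    have hev2 := h2 (-w) z (by linarith) hwz (by
      filter_upwards [hev] with n hn
      rw [neg_neg]
      exact hn.le)
    refine limsup_le_of_le (by isBoundedDefault) ?_
    filter_upwards [hev2] with n hn
    exact_mod_cast hn
  have k2 : - liminf a atTop ≤ limsup (fun n => ((b n : ℝ) : EReal)) atTop := by
    rw [← EReal.le_of_forall_lt_iff_le]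
    intro z hz
    obtain ⟨y', hy1, hy2⟩ := EReal.exists_between_coe_real hz
    have hy0 : 0 < y' := by
      have := hU.trans_lt hy1
      exact_mod_cast this
    have hyz : y' < z := by exact_mod_cast hy2
    have hev := eventually_lt_of_limsup_lt hy1
    have hev2 := h1 y' z hy0 hyz (by
      filter_upwards [hev] with n hn
      have : b n < y' := by exact_mod_cast hn
      exact this.le)
    have h3 : ((-z : ℝ) : EReal) ≤ liminf a atTop := le_liminf_of_le (by isBoundedDefault) hev2
    rw [EReal.coe_neg] at h3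
    exact EReal.neg_le_of_neg_le h3
  have k3 := le_antisymm k1 k2
  rw [k3, neg_neg]

end Pool.Agent.R133.AF
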