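import Mathlib

open Complex Filter Topology Set Metric

namespace Pool.Agent.R133.AF

/-- derivatives of `(z - a) G z` -/
theorem deriv_sub_mul {G : ℂ → ℂ} {a z : ℂ} (hG : AnalyticAt ℂ G z) :
    deriv (fun w => (w - a) * G w) z = G z + (z - a) * deriv G z := by
  have h1 : HasDerivAt (fun w : ℂ => w - a) 1 z := (hasDerivAt_id z).sub_const a
  have h2 := h1.mul hG.differentiableAt.hasDerivAt
  have h3 := h2.deriv
  simp only [one_mul] at h3
  exact h3

theorem taylor_three {f G : ℂ → ℂ} {a : ℂ} (hG : AnalyticAt ℂ G a)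
    (hf : ∀ z, f z = (z - a) * G z) :
    deriv f a = G a ∧ deriv (deriv f) a = 2 * deriv G a ∧
      deriv (deriv (deriv f)) a = 3 * deriv (deriv G) a := by
  have hfe : f = fun z => (z - a) * G z := funext hf
  have e1 : deriv f =ᶠ[𝓝 a] fun z => G z + (z - a) * deriv G z := by
    filter_upwards [hG.eventually_analyticAt] with z hz
    rw [hfe]
    exact deriv_sub_mul hz
  have e2 : deriv (deriv f) =ᶠ[𝓝 a] fun z => 2 * deriv G z + (z - a) * deriv (deriv G) z := by
    have h1 := e1.deriv
    refine h1.trans ?_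
    filter_upwards [hG.eventually_analyticAt] with z hz
    have h2 : HasDerivAt G (deriv G z) z := hz.differentiableAt.hasDerivAt
    have h3 : HasDerivAt (fun w => (w - a) * deriv G w)
        (deriv G z + (z - a) * deriv (deriv G) z) z := by
      have h1 : HasDerivAt (fun w : ℂ => w - a) 1 z := (hasDerivAt_id z).sub_const a
      have h2 := h1.mul hz.deriv.differentiableAt.hasDerivAt
      simp only [one_mul] at h2
      exact h2
    have h4 := (h2.add h3).deriv
    have h5 : (G + fun w => (w - a) * deriv G w) = fun z => G z + (z - a) * deriv G z := rfl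
    rw [h5] at h4
    rw [h4]
    ring
  have e3 : deriv (deriv (deriv f)) a = 3 * deriv (deriv G) a := by
    have h1 := e2.deriv.eq_of_nhds
    rw [h1]
    have h2 : HasDerivAt (fun w => 2 * deriv G w) (2 * deriv (deriv G) a) a :=
      (hG.deriv.differentiableAt.hasDerivAt).const_mul 2
    have h3 : HasDerivAt (fun w => (w - a) * deriv (deriv G) w)
        (deriv (deriv G) a + (a - a) * deriv (deriv (deriv G)) a) a := by
      have h1 : HasDerivAt (fun w : ℂ => w - a) 1 a := (hasDerivAt_id a).sub_const a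
      have h2 := h1.mul hG.deriv.deriv.differentiableAt.hasDerivAt
      simp only [one_mul] at h2
      exact h2
    have h4 := (h2.add h3).deriv
    have h5 : ((fun w => 2 * deriv G w) + fun w => (w - a) * deriv (deriv G) w) =
      fun z => 2 * deriv G z + (z - a) * deriv (deriv G) z := rfl
    rw [h5] at h4
    rw [h4]
    ring
  refine ⟨?_, ?_, e3⟩
  · rw [e1.eq_of_nhds]; ring
  · rw [e2.eq_of_nhds]; ring

/-- the third order coefficient -/
noncomputable def Sf (F : ℂ → ℂ) (s : ℂ) : ℂ :=
  deriv (deriv (deriv F)) s / (3 * deriv F s) - (deriv (deriv F) s / (2 * deriv F s)) ^ 2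

theorem Sf_eq {f G : ℂ → ℂ} {a : ℂ} (hG : AnalyticAt ℂ G a) (hGa : G a ≠ 0)
    (hf : ∀ z, f z = (z - a) * G z) : Sf f a = deriv (logDeriv G) a := by
  obtain ⟨h1, h2, h3⟩ := taylor_three hG hf
  unfold Sf
  rw [h1, h2, h3]
  have h4 : HasDerivAt (logDeriv G)
      ((deriv (deriv G) a * G a - deriv G a * deriv G a) / G a ^ 2) a := by
    exact (hG.deriv.differentiableAt.hasDerivAt).div hG.differentiableAt.hasDerivAt hGa
  rw [h4.deriv]
  field_simp

end Pool.Agent.R133.AF
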