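import Pool.Agent.H382R2.Final0
import Pool.Agent.R133.AF.Loc3
import Pool.Agent.R133.AF.ER

open Complex Filter Topology Set Metric SG

namespace Pool.Agent.R133.AF

/-! ### counting -/

theorem NN_le_NZ {a b : ℝ} (ha : 1 ≤ a) : H370.NN riemannZeta a b ≤ NZ b := by
  classical
  have hfin := H370.zset_finite H370.good_zeta a b ha
  have hNN : H370.NN riemannZeta a b = ∑ s ∈ hfin.toFinset, zmult s :=
    finsum_mem_eq_finite_toFinset_sum _ hfin
  rw [NZ_eq, hNN]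
  apply Finset.sum_le_sum_of_subset
  intro s hs
  rw [Set.Finite.mem_toFinset] at hs ⊢
  exact ⟨hs.2.2.2.2, hs.1, hs.2.1, by linarith [hs.2.2.1], hs.2.2.2.1⟩

theorem ord_le_two_mul : ∀ᶠ n : ℕ in atTop, ord n ≤ 2 * n := by
  obtain ⟨C, T0, hC, hT0, h⟩ := H370.nn_asymp H370.good_zeta
  have hpi := Real.pi_pos
  have hlim : Tendsto (fun n : ℕ => Real.log (n : ℝ)) atTop atTop :=
    Real.tendsto_log_atTop.comp tendsto_natCast_atTop_atTop
  filter_upwards [hlim.eventually_ge_atTop (2 * Real.pi * (C + 1)),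
    tendsto_natCast_atTop_atTop.eventually_ge_atTop T0, eventually_ge_atTop 1] with n h1 h2 h3
  have h4 := h n h2 n (2 * n) le_rfl (by linarith) (by linarith) le_rfl
  have h5 := (abs_le.1 h4).1
  rw [ord_le_iff h3]
  have h6 : (n : ℝ) * (C + 1) ≤ n * Real.log n / (2 * Real.pi) := by
    rw [le_div_iff₀ (by positivity)]
    have : (0 : ℝ) ≤ n := Nat.cast_nonneg n
    nlinarith
  have h7 : (n : ℝ) ≤ (H370.NN riemannZeta n (2 * n) : ℝ) := by nlinarith
  have h8 : n ≤ H370.NN riemannZeta n (2 * n) := by exact_mod_cast h7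
  exact h8.trans (NN_le_NZ (by exact_mod_cast h3))

theorem ord_is_zero {n : ℕ} (hn : 1 ≤ n) :
    ∃ s : ℂ, riemannZeta s = 0 ∧ 0 < s.re ∧ s.re < 1 ∧ s.im = ord n := by
  obtain ⟨t', ht', he⟩ := NZ_left (ord n)
  by_contra hcon
  push Not at hcon
  have h0 : {s : ℂ | riemannZeta s = 0 ∧ 0 < s.re ∧ s.re < 1 ∧ 0 < s.im ∧ s.im = ord n} = ∅ := by
    ext s
    simp only [Set.mem_setOf_eq, Set.mem_empty_iff_false, iff_false]
    rintro ⟨a1, a2, a3, a4, a5⟩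
    exact hcon s a1 a2 a3 a5
  rw [h0, finsum_mem_empty, add_zero] at he
  have h1 := le_NZ_ord hn
  rw [he] at h1
  have := (ord_le_iff hn t').2 h1
  linarith

/-- all zeros above `T` are simple and on the line -/
def Good (T : ℝ) : Prop :=
  ∀ s : ℂ, riemannZeta s = 0 → 0 < s.re → s.re < 1 → T ≤ s.im → s.re = 1 / 2 ∧ zmult s = 1

theorem Good.deriv_ne {T : ℝ} (h : Good T) {s : ℂ} (h0 : riemannZeta s = 0) (h1 : 0 < s.re)
    (h2 : s.re < 1) (h3 : T ≤ s.im) (h4 : 0 < s.im) : deriv riemannZeta s ≠ 0 := by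
  intro hd
  have := zmult_two h4 h0 hd
  have := (h s h0 h1 h2 h3).2
  omega

theorem Good.ord_zero {T : ℝ} (h : Good T) {n : ℕ} (hn : 1 ≤ n) (hT : T ≤ ord n) :
    riemannZeta ⟨1 / 2, ord n⟩ = 0 := by
  obtain ⟨s, h0, h1, h2, h3⟩ := ord_is_zero hn
  have h4 := (h s h0 h1 h2 (h3 ▸ hT)).1
  have : s = ⟨1 / 2, ord n⟩ := Complex.ext h4 h3
  rwa [this] at h0

theorem Good.ord_lt {T : ℝ} (h : Good T) {n : ℕ} (hn : 1 ≤ n) (hT : T ≤ ord n) :
    ord n < ord (n + 1) := by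
  rcases (ord_mono hn (Nat.le_succ n)).lt_or_eq with h1 | h1
  · exact h1
  exfalso
  obtain ⟨t', ht', he⟩ := NZ_left (ord n)
  have h2 : ∑ᶠ s ∈ {s : ℂ | riemannZeta s = 0 ∧ 0 < s.re ∧ s.re < 1 ∧ 0 < s.im ∧
      s.im = ord n}, zmult s ≤ 1 := by
    have hsub : {s : ℂ | riemannZeta s = 0 ∧ 0 < s.re ∧ s.re < 1 ∧ 0 < s.im ∧
      s.im = ord n} = {(⟨1 / 2, ord n⟩ : ℂ)} := by
      ext s
      simp only [Set.mem_setOf_eq, Set.mem_singleton_iff]
      constructor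
      · rintro ⟨a1, a2, a3, a4, a5⟩
        exact Complex.ext (h s a1 a2 a3 (a5 ▸ hT)).1 a5
      · rintro rfl
        exact ⟨h.ord_zero hn hT, by norm_num, by norm_num, ord_pos hn, rfl⟩
    rw [hsub, finsum_mem_singleton]
    exact (h _ (h.ord_zero hn hT) (by norm_num) (by norm_num) hT).2.le
  have h3 : n + 1 ≤ NZ (ord n) := (ord_le_iff (by omega) _).1 h1.ge
  have h4 : n ≤ NZ t' := by
    rw [he] at h3
    omega
  have := (ord_le_iff hn t').2 h4
  linarith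

theorem no_between {n : ℕ} (hn : 1 ≤ n) {s : ℂ} (h : riemannZeta s = 0) (h1 : 0 < s.re)
    (h2 : s.re < 1) (h3 : ord n < s.im) : ord (n + 1) ≤ s.im := by
  have h4 := jump_one h h1 h2 ((ord_pos hn).trans h3) (ord n) h3
  have h5 := zmult_pos ((ord_pos hn).trans h3) h
  have h6 := le_NZ_ord hn
  exact (ord_le_iff (by omega) _).2 (by omega)

/-! ### the bounds for the third order coefficient -/

theorem msum_le (s : Multiset ℂ) (f : ℂ → ℂ) (B : ℝ) (h : ∀ ρ ∈ s, ‖f ρ‖ ≤ B) :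
    ‖(s.map f).sum‖ ≤ Multiset.card s * B := by
  induction s using Multiset.induction_on with
  | empty => simp
  | cons a s ih =>
    rw [Multiset.map_cons, Multiset.sum_cons, Multiset.card_cons]
    have h1 := ih fun ρ hρ => h ρ (Multiset.mem_cons_of_mem hρ)
    have h2 := h a (Multiset.mem_cons_self a s)
    push_cast
    calc ‖f a + (s.map f).sum‖ ≤ ‖f a‖ + ‖(s.map f).sum‖ := norm_add_le _ _
      _ ≤ ((Multiset.card s : ℝ) + 1) * B := by linarith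

theorem msum_re_nonneg (s : Multiset ℂ) (f : ℂ → ℂ) (h : ∀ ρ ∈ s, 0 ≤ (f ρ).re) :
    0 ≤ ((s.map f).sum).re := by
  induction s using Multiset.induction_on with
  | empty => simp
  | cons a s ih =>
    rw [Multiset.map_cons, Multiset.sum_cons, Complex.add_re]
    have h1 := ih fun ρ hρ => h ρ (Multiset.mem_cons_of_mem hρ)
    have h2 := h a (Multiset.mem_cons_self a s)
    linarith

theorem msum_re_ge (s : Multiset ℂ) (f : ℂ → ℂ) (h : ∀ ρ ∈ s, 0 ≤ (f ρ).re) {x : ℂ}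
    (hx : x ∈ s) : (f x).re ≤ ((s.map f).sum).re := by
  obtain ⟨u, hu⟩ := Multiset.exists_cons_of_mem hx
  rw [hu, Multiset.map_cons, Multiset.sum_cons, Complex.add_re]
  have := msum_re_nonneg u f fun ρ hρ => h ρ (by rw [hu]; exact Multiset.mem_cons_of_mem hρ)
  linarith

theorem in_strip {t : ℝ} (ht : 3 ≤ t) {ρ : ℂ} (h : ρ ∈ closedBall (⟨2, t⟩ : ℂ) 1.8)
    (h0 : riemannZeta ρ = 0) : 0 < ρ.re ∧ ρ.re < 1 ∧ t - 2 ≤ ρ.im := by
  rw [mem_closedBall, dist_eq_norm] at h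
  have h1 := (Complex.abs_re_le_norm (ρ - ⟨2, t⟩)).trans h
  have h2 := (Complex.abs_im_le_norm (ρ - ⟨2, t⟩)).trans h
  simp only [sub_re, sub_im] at h1 h2
  rw [abs_le] at h1 h2
  have h3 : t - 2 ≤ ρ.im := by norm_num at h2 ⊢; linarith [h2.1]
  refine ⟨by norm_num at h1 ⊢; linarith [h1.1], ?_, h3⟩
  by_contra hre
  push Not at hre
  exact H370.good_zeta.nzr ρ hre (by linarith) h0

theorem a_mem (t : ℝ) : (⟨1 / 2, t⟩ : ℂ) ∈ closedBall (⟨2, t⟩ : ℂ) 1.5 := by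
  rw [mem_closedBall, dist_eq_norm]
  have : (⟨1 / 2, t⟩ : ℂ) - ⟨2, t⟩ = ((-1.5 : ℝ) : ℂ) := by
    apply Complex.ext
    · simp; norm_num
    · simp
  rw [this, Complex.norm_real]
  norm_num

theorem inv_sq_eq (t u : ℝ) (h : t ≠ u) :
    1 / ((⟨1 / 2, t⟩ : ℂ) - ⟨1 / 2, u⟩) ^ 2 = ((-(1 / (t - u) ^ 2) : ℝ) : ℂ) := by
  have h1 : (⟨1 / 2, t⟩ : ℂ) - ⟨1 / 2, u⟩ = ((t - u : ℝ) : ℂ) * I := by
    apply Complex.ext
    · simp
    · simp
  have h2 : ((t - u : ℝ) : ℂ) ≠ 0 := by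
    rw [Complex.ofReal_ne_zero]
    exact sub_ne_zero.2 h
  rw [h1, mul_pow, I_sq]
  push_cast
  push_cast at h2
  field_simp

theorem bounds {T : ℝ} (h : Good T) : ∃ K : ℝ, 0 < K ∧ ∀ᶠ n : ℕ in atTop,
    (ord (n + 1) - ord n ≤ 0.9 → 1 / (ord (n + 1) - ord n) ^ 2 ≤
      ‖Sf riemannZeta ⟨1 / 2, ord n⟩‖ + K * Real.log (ord n)) ∧
    (∀ d : ℝ, 0 < d → d ≤ ord (n + 1) - ord n → d ≤ ord n - ord (n - 1) →
      ‖Sf riemannZeta ⟨1 / 2, ord n⟩‖ ≤ K * Real.log (ord n) * (1 + 1 / d ^ 2)) := by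
  obtain ⟨K, hK, hloc⟩ := local_formula H370.good_zeta
  refine ⟨K, hK, ?_⟩
  filter_upwards [ord_tendsto.eventually_ge_atTop (max 3 (T + 2)), eventually_ge_atTop 2]
    with n hn hn2
  set t := ord n with htdef
  have ht3 : 3 ≤ t := (le_max_left _ _).trans hn
  have htT : T + 2 ≤ t := (le_max_right _ _).trans hn
  have h1n : 1 ≤ n := by omega
  have hz0 : riemannZeta ⟨1 / 2, t⟩ = 0 := h.ord_zero h1n (by linarith)
  have hd0 : deriv riemannZeta ⟨1 / 2, t⟩ ≠ 0 :=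
    h.deriv_ne hz0 (by norm_num) (by norm_num) (by simp; linarith) (by simp; linarith)
  have hlt : t < ord (n + 1) := h.ord_lt h1n (by linarith)
  obtain ⟨s, hs1, hs2, hs3, hs4⟩ := hloc t ht3 ⟨1 / 2, t⟩ (a_mem t) hz0 hd0
  have hform : ∀ ρ ∈ s, ∃ u : ℝ, ρ = ⟨1 / 2, u⟩ ∧ u ≠ t := by
    intro ρ hρ
    obtain ⟨g1, g2, g3⟩ := hs1 ρ hρ
    obtain ⟨e1, e2, e3⟩ := in_strip ht3 g1 g2
    have e4 := (h ρ g2 e1 e2 (by linarith)).1
    refine ⟨ρ.im, Complex.ext e4 rfl, ?_⟩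
    intro he
    exact g3 (Complex.ext e4 he)
  have hlog : 0 ≤ K * Real.log t := by
    have := H370.Loc.one_le_log ht3
    positivity
  constructor
  · intro hd
    have hx0 : riemannZeta ⟨1 / 2, ord (n + 1)⟩ = 0 := h.ord_zero (by omega) (by linarith)
    have hxs : (⟨1 / 2, ord (n + 1)⟩ : ℂ) ∈ s := by
      apply hs2 _ _ hx0
      · intro he
        have := congrArg Complex.im he
        simp only at this
        linarith
      · rw [mem_closedBall, dist_eq_norm]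
        rw [Complex.norm_def, Complex.normSq_apply]
        apply Real.sqrt_le_iff.2
        refine ⟨by norm_num, ?_⟩
        simp only [sub_re, sub_im]
        nlinarith
    have h1 := msum_re_ge s (fun ρ => -(1 / ((⟨1 / 2, t⟩ : ℂ) - ρ) ^ 2)) (by
      intro ρ hρ
      obtain ⟨u, rfl, hu⟩ := hform ρ hρ
      rw [inv_sq_eq t u hu.symm, ← Complex.ofReal_neg, Complex.ofReal_re, neg_neg]
      positivity) hxs
    rw [inv_sq_eq t _ hlt.ne, ← Complex.ofReal_neg, Complex.ofReal_re, neg_neg] at h1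
    have h2 : (s.map (fun ρ => -(1 / ((⟨1 / 2, t⟩ : ℂ) - ρ) ^ 2))).sum =
        -(s.map (fun ρ => 1 / ((⟨1 / 2, t⟩ : ℂ) - ρ) ^ 2)).sum := Multiset.sum_map_neg
    rw [h2] at h1
    set X := (s.map (fun ρ => 1 / ((⟨1 / 2, t⟩ : ℂ) - ρ) ^ 2)).sum with hX
    have h3 : (-X).re ≤ ‖X‖ := by
      have := Complex.re_le_norm (-X)
      rwa [norm_neg] at this
    have h4 : ‖X‖ ≤ ‖Sf riemannZeta ⟨1 / 2, t⟩‖ + K * Real.log t := by
      calc ‖X‖ = ‖(Sf riemannZeta ⟨1 / 2, t⟩ + X) - Sf riemannZeta ⟨1 / 2, t⟩‖ := by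
            congr 1; ring
        _ ≤ ‖Sf riemannZeta ⟨1 / 2, t⟩ + X‖ + ‖Sf riemannZeta ⟨1 / 2, t⟩‖ := norm_sub_le _ _
        _ ≤ _ := by linarith
    have h5 : (t - ord (n + 1)) ^ 2 = (ord (n + 1) - t) ^ 2 := by ring
    rw [h5] at h1
    linarith
  · intro d hd0 hd1 hd2
    have h1 := msum_le s (fun ρ => 1 / ((⟨1 / 2, t⟩ : ℂ) - ρ) ^ 2) (1 / d ^ 2) (by
      intro ρ hρ
      obtain ⟨u, rfl, hu⟩ := hform ρ hρ
      obtain ⟨g1, g2, g3⟩ := hs1 _ hρ
      obtain ⟨e1, e2, e3⟩ := in_strip ht3 g1 g2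
      rw [inv_sq_eq t u hu.symm, Complex.norm_real, norm_neg, Real.norm_of_nonneg (by positivity)]
      apply one_div_le_one_div_of_le (by positivity)
      rw [sq_le_sq, abs_of_pos hd0]
      rcases lt_or_gt_of_ne hu with hlt' | hgt
      · have h5 : u ≤ ord (n - 1) := by
          by_contra hc
          push Not at hc
          have := no_between (n := n - 1) (by omega) g2 e1 e2 hc
          rw [Nat.sub_add_cancel h1n] at this
          simp only at this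
          linarith
        rw [abs_of_pos (by linarith)]
        linarith
      · have h5 := no_between (n := n) (by omega) g2 e1 e2 hgt
        simp only at h5
        rw [abs_of_neg (by linarith)]
        linarith)
    set X := (s.map (fun ρ => 1 / ((⟨1 / 2, t⟩ : ℂ) - ρ) ^ 2)).sum with hX
    have h2 : (Multiset.card s : ℝ) * (1 / d ^ 2) ≤ K * Real.log t * (1 / d ^ 2) :=
      mul_le_mul_of_nonneg_right hs3 (by positivity)
    calc ‖Sf riemannZeta ⟨1 / 2, t⟩‖ = ‖(Sf riemannZeta ⟨1 / 2, t⟩ + X) - X‖ := by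
          congr 1; ring
      _ ≤ ‖Sf riemannZeta ⟨1 / 2, t⟩ + X‖ + ‖X‖ := norm_sub_le _ _
      _ ≤ K * Real.log t + K * Real.log t * (1 / d ^ 2) := by linarith
      _ = _ := by ring

end Pool.Agent.R133.AF
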