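import Pool.Agent.R133.AF.Fin

open Complex Filter Topology Set Metric SG

namespace Pool.Agent.R133.AF

theorem asym (K y' y : ℝ) (hK : 0 < K) (hy' : 0 < y') (hyy : y' < y) :
    ∀ᶠ n : ℕ in atTop, K * Real.log (2 * n) * (1 + (n : ℝ) ^ (2 * y')) ≤ (n : ℝ) ^ (2 * y) := by
  set ε := 2 * (y - y') with hε
  have hε0 : 0 < ε := by rw [hε]; linarith
  have h1 := ((isLittleO_log_rpow_atTop hε0).bound (c := 1 / (4 * K)) (by positivity))
  have h2 := tendsto_natCast_atTop_atTop.eventually h1
  filter_upwards [h2, eventually_ge_atTop 2] with n hn hn2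
  have hn2' : (2 : ℝ) ≤ n := by exact_mod_cast hn2
  have hn0 : (0 : ℝ) < n := by linarith
  have hlog : 0 ≤ Real.log n := Real.log_nonneg (by linarith)
  rw [Real.norm_of_nonneg hlog, Real.norm_of_nonneg (by positivity)] at hn
  have h3 : Real.log (2 * n) ≤ 2 * Real.log n := by
    have : Real.log (2 * n) ≤ Real.log ((n : ℝ) ^ 2) :=
      Real.log_le_log (by positivity) (by nlinarith)
    rwa [Real.log_pow] at this
  have h4 : (1 : ℝ) ≤ (n : ℝ) ^ (2 * y') := Real.one_le_rpow (by linarith) (by linarith)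
  have h5 : 4 * K * Real.log n ≤ (n : ℝ) ^ ε := by
    rw [one_div, inv_mul_eq_div, le_div_iff₀ (by positivity)] at hn
    linarith
  have h6 : (0 : ℝ) ≤ Real.log (2 * n) := Real.log_nonneg (by linarith)
  calc K * Real.log (2 * n) * (1 + (n : ℝ) ^ (2 * y'))
      ≤ K * (2 * Real.log n) * (2 * (n : ℝ) ^ (2 * y')) := by
        apply mul_le_mul _ _ (by positivity) (by positivity)
        · gcongr
        · linarith
    _ = 4 * K * Real.log n * (n : ℝ) ^ (2 * y') := by ring
    _ ≤ (n : ℝ) ^ ε * (n : ℝ) ^ (2 * y') := by gcongr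
    _ = (n : ℝ) ^ (2 * y) := by
        rw [← Real.rpow_add hn0, hε]
        congr 1
        ring

/-- `log (γ_(n+1) - γ_n) / log n`, with `log 0 = -∞` -/
noncomputable def gapLog (n : ℕ) : EReal :=
  if ord (n + 1) - ord n = 0 then ⊥ else
    ((Real.log (ord (n + 1) - ord n) / Real.log n : ℝ) : EReal)

theorem gapLog_freq : ∃ᶠ n in atTop, gapLog n ≤ 0 := by
  have h1 := small_gap_freq 1 (by norm_num)
  have hlim : Tendsto (fun n : ℕ => Real.log (n : ℝ)) atTop atTop :=
    Real.tendsto_log_atTop.comp tendsto_natCast_atTop_atTop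
  have h2 := hlim.eventually_ge_atTop (2 * Real.pi)
  refine (h1.and_eventually (h2.and (eventually_ge_atTop 1))).mono ?_
  rintro n ⟨h3, h4, h5⟩
  unfold gapLog
  split_ifs with h6
  · exact bot_le
  · have hpi := Real.pi_pos
    have h7 : 0 < Real.log n := by linarith
    have h8 : ord (n + 1) - ord n < 1 := by
      refine h3.trans_le ?_
      rw [one_mul, div_le_one h7]
      exact h4
    have h9 : 0 ≤ ord (n + 1) - ord n := by
      have := ord_mono h5 (Nat.le_succ n)
      linarith
    have h10 : Real.log (ord (n + 1) - ord n) ≤ 0 := Real.log_nonpos h9 h8.le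
    have h11 : Real.log (ord (n + 1) - ord n) / Real.log n ≤ 0 :=
      div_nonpos_of_nonpos_of_nonneg h10 h7.le
    exact_mod_cast h11

/-- growth of the third order coefficient -/
noncomputable def coefLog (n : ℕ) : ℝ :=
  Real.posLog ‖Sf riemannZeta ⟨1 / 2, ord n⟩‖ / (2 * Real.log n)

theorem main_good {T : ℝ} (h : Good T) :
    liminf gapLog atTop = - limsup (fun n => ((coefLog n : ℝ) : EReal)) atTop := by
  obtain ⟨K, hK, hbd⟩ := bounds h
  have hlim : Tendsto (fun n : ℕ => Real.log (n : ℝ)) atTop atTop :=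
    Real.tendsto_log_atTop.comp tendsto_natCast_atTop_atTop
  have hpos : ∀ᶠ n : ℕ in atTop, 0 < ord (n + 1) - ord n := by
    filter_upwards [ord_tendsto.eventually_ge_atTop T, eventually_ge_atTop 1] with n h1 h2
    have := h.ord_lt h2 h1
    linarith
  have hlogord : ∀ᶠ n : ℕ in atTop, 0 ≤ Real.log (ord n) ∧
      Real.log (ord n) ≤ Real.log (2 * n) := by
    filter_upwards [ord_le_two_mul, ord_tendsto.eventually_ge_atTop 1] with n h1 h2
    exact ⟨Real.log_nonneg h2, Real.log_le_log (by linarith) h1⟩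
  apply ereal_main
  · intro y' y hy' hyy hb
    have hK' : 0 < max K 2 := lt_max_of_lt_left hK
    filter_upwards [hb, hbd, hpos, hlogord, asym (max K 2) y' y hK' hy' hyy,
      hlim.eventually_ge_atTop (max 1 (1 / y)), eventually_ge_atTop 2] with n g1 g2 g3 g4 g5 g6 g7
    have hl1 : 1 ≤ Real.log n := (le_max_left _ _).trans g6
    have hl2 : 1 / y ≤ Real.log n := (le_max_right _ _).trans g6
    have hy0 : 0 < y := by linarith
    have hn0 : (0 : ℝ) < n := by
      have : (2 : ℝ) ≤ n := by exact_mod_cast g7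
      linarith
    unfold gapLog
    rw [if_neg g3.ne']
    have key : -y ≤ Real.log (ord (n + 1) - ord n) / Real.log n := by
      rw [le_div_iff₀ (by linarith)]
      by_cases hd : ord (n + 1) - ord n ≤ 0.9
      · have e1 := g2.1 hd
        have e2 : ‖Sf riemannZeta ⟨1 / 2, ord n⟩‖ ≤ (n : ℝ) ^ (2 * y') := by
          unfold coefLog at g1
          rw [div_le_iff₀ (by linarith)] at g1
          have e3 : Real.posLog ‖Sf riemannZeta ⟨1 / 2, ord n⟩‖ ≤
              Real.log ((n : ℝ) ^ (2 * y')) := by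
            rw [Real.log_rpow hn0]
            linarith
          rw [Real.posLog_eq_log_max_one (norm_nonneg _)] at e3
          have e4 := (Real.log_le_log_iff (by positivity) (by positivity)).1 e3
          exact (le_max_right _ _).trans e4
        have e5 : 1 / (ord (n + 1) - ord n) ^ 2 ≤ (n : ℝ) ^ (2 * y) := by
          have e6 : K * Real.log (ord n) ≤ max K 2 * Real.log (2 * n) := by
            apply mul_le_mul (le_max_left _ _) g4.2 g4.1 hK'.le
          have e7 : 1 ≤ max K 2 * Real.log (2 * n) := by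
            have : Real.log n ≤ Real.log (2 * n) := Real.log_le_log hn0 (by linarith)
            have h2 : 2 ≤ max K 2 := le_max_right _ _
            nlinarith
          have e8 : 0 < (n : ℝ) ^ (2 * y') := by positivity
          have e9 : (n : ℝ) ^ (2 * y') ≤ max K 2 * Real.log (2 * n) * (n : ℝ) ^ (2 * y') := by
            nlinarith
          calc _ ≤ _ := e1
            _ ≤ (n : ℝ) ^ (2 * y') + max K 2 * Real.log (2 * n) := add_le_add e2 e6
            _ ≤ max K 2 * Real.log (2 * n) * (1 + (n : ℝ) ^ (2 * y')) := by linarith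
            _ ≤ _ := g5
        have e10 := Real.log_le_log (by positivity) e5
        rw [Real.log_rpow hn0, one_div, Real.log_inv, Real.log_pow] at e10
        push_cast at e10
        linarith
      · push Not at hd
        have e1 : Real.log (1 / 2) ≤ Real.log (ord (n + 1) - ord n) :=
          Real.log_le_log (by norm_num) (by norm_num at hd ⊢; linarith)
        have e2 : -1 ≤ Real.log (1 / 2 : ℝ) := by
          rw [one_div, Real.log_inv]
          linarith [Real.log_two_lt_d9]
        have e3 : 1 ≤ y * Real.log n := by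
          rw [div_le_iff₀ hy0] at hl2
          linarith
        linarith
    exact_mod_cast key
  · intro y' y hy' hyy ha
    have ha' : ∀ᶠ n : ℕ in atTop, (n : ℝ) ^ (-y') ≤ ord (n + 1) - ord n := by
      filter_upwards [ha, hpos, hlim.eventually_ge_atTop 1, eventually_ge_atTop 1] with
        n g1 g2 g3 g4
      unfold gapLog at g1
      rw [if_neg g2.ne'] at g1
      have g5 : -y' ≤ Real.log (ord (n + 1) - ord n) / Real.log n := by exact_mod_cast g1
      rw [le_div_iff₀ (by linarith)] at g5
      have hn0 : (0 : ℝ) < n := by exact_mod_cast g4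
      rw [← Real.log_rpow hn0] at g5
      exact (Real.log_le_log_iff (by positivity) g2).1 g5
    have ha'' : ∀ᶠ n : ℕ in atTop, ((n - 1 : ℕ) : ℝ) ^ (-y') ≤ ord (n - 1 + 1) - ord (n - 1) :=
      (tendsto_sub_atTop_nat 1).eventually ha'
    filter_upwards [ha', ha'', hbd, hlogord, asym K y' y hK hy' hyy,
      hlim.eventually_ge_atTop 1, eventually_ge_atTop 2] with n g1 g2 g3 g4 g5 g6 g7
    have hn0 : (0 : ℝ) < n := by
      have : (2 : ℝ) ≤ n := by exact_mod_cast g7
      linarith
    have e1 : n - 1 + 1 = n := by omega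
    rw [e1] at g2
    have e2 : (n : ℝ) ^ (-y') ≤ ((n - 1 : ℕ) : ℝ) ^ (-y') := by
      apply Real.rpow_le_rpow_of_nonpos _ _ (by linarith)
      · have : 1 ≤ n - 1 := by omega
        exact_mod_cast this
      · exact_mod_cast Nat.sub_le n 1
    have e3 := g3.2 ((n : ℝ) ^ (-y')) (by positivity) g1 (e2.trans g2)
    have e4 : 1 / ((n : ℝ) ^ (-y')) ^ 2 = (n : ℝ) ^ (2 * y') := by
      rw [← Real.rpow_natCast, ← Real.rpow_mul hn0.le, one_div, ← Real.rpow_neg hn0.le]
      congr 1
      push_cast
      ring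
    rw [e4] at e3
    have e5 : ‖Sf riemannZeta ⟨1 / 2, ord n⟩‖ ≤ (n : ℝ) ^ (2 * y) := by
      refine e3.trans (le_trans ?_ g5)
      have : 0 < (n : ℝ) ^ (2 * y') := by positivity
      have h4 := g4.2
      gcongr
    unfold coefLog
    rw [div_le_iff₀ (by linarith)]
    have e6 : Real.posLog ‖Sf riemannZeta ⟨1 / 2, ord n⟩‖ ≤ Real.posLog ((n : ℝ) ^ (2 * y)) :=
      Real.posLog_le_posLog (norm_nonneg _) e5
    have hn1 : (1 : ℝ) ≤ n := by
      have : (2 : ℝ) ≤ n := by exact_mod_cast g7
      linarith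
    have e7 : 1 ≤ (n : ℝ) ^ (2 * y) := Real.one_le_rpow hn1 (by linarith)
    rw [Real.posLog_eq_log (x := (n : ℝ) ^ (2 * y))
      (by rw [abs_of_nonneg (by positivity)]; exact e7), Real.log_rpow hn0] at e6
    linarith
  · intro n
    unfold coefLog
    rcases Nat.eq_zero_or_pos n with rfl | hn
    · simp
    · have : 0 ≤ Real.log n := Real.log_natCast_nonneg n
      have h2 : 0 ≤ Real.posLog ‖Sf riemannZeta ⟨1 / 2, ord n⟩‖ := Real.posLog_nonneg
      positivity
  · exact gapLog_freq

theorem gap_zero_of_not_good (h : ¬ ∃ T, Good T) :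
    ∃ᶠ n : ℕ in atTop, ord (n + 1) - ord n = 0 := by
  rw [frequently_atTop]
  intro N
  have h1 : ¬ Good (max 1 (ord (N + 1) + 1)) := fun hg => h ⟨_, hg⟩
  unfold Good at h1
  push Not at h1
  obtain ⟨s, h0, h1, h2, h3, h4⟩ := h1
  have hs1 : 1 ≤ s.im := (le_max_left _ _).trans h3
  have hsN : ord (N + 1) + 1 ≤ s.im := (le_max_right _ _).trans h3
  have hj : ∀ t, t < s.im → NZ t + 2 ≤ NZ s.im := by
    intro t ht
    by_cases hre : s.re = 1 / 2
    · have h5 := h4 hre
      have h6 := zmult_pos (by linarith) h0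
      have h7 := jump_one h0 h1 h2 (by linarith) t ht
      omega
    · have hz := zero_reflect h0 h1 h2 hs1
      have him : (1 - (starRingEnd ℂ) s).im = s.im := by simp
      have hre' : (1 - (starRingEnd ℂ) s).re = 1 - s.re := by simp
      refine jump_two h0 h1 h2 (by linarith) hz (by rw [hre']; linarith)
        (by rw [hre']; linarith) him ?_ t ht
      intro he
      have := congrArg Complex.re he
      rw [hre'] at this
      apply hre
      linarith
  obtain ⟨n, hn1, hn2, hn3⟩ := consecutive_of_jump (by linarith) hj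
  refine ⟨n, ?_, ?_⟩
  · by_contra hlt
    push Not at hlt
    have := ord_mono hn1 (by omega : n ≤ N + 1)
    linarith
  · have := ord_mono hn1 (Nat.le_succ n)
    linarith

theorem main_bad (h : ¬ ∃ T, Good T) : liminf gapLog atTop = ⊥ := by
  have h1 := gap_zero_of_not_good h
  have h2 : ∃ᶠ n : ℕ in atTop, gapLog n ≤ ⊥ := by
    refine h1.mono fun n hn => ?_
    unfold gapLog
    rw [if_pos hn]
  exact le_bot_iff.1 (liminf_le_of_frequently_le' h2)

end Pool.Agent.R133.AF
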