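import Pool.Agent.Helper240.ZU.A1

/-! The bound for zeta on a vertical line moves to the right (adapted from TH778.GF.ST). -/

namespace Pool.Agent.R133.AF

open Complex Filter Topology MeasureTheory Set

noncomputable section

/-- `(v-1) ζ(v)` -/
def FF : ℂ → ℂ := Function.update (fun v => (v - 1) * riemannZeta v) 1 1

theorem FF_one : FF 1 = 1 := Function.update_self _ _ _

theorem FF_ne {v : ℂ} (hv : v ≠ 1) : FF v = (v - 1) * riemannZeta v :=
  Function.update_of_ne hv _ _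

theorem FF_diff : Differentiable ℂ FF := by
  rw [← differentiableOn_univ, ← differentiableOn_compl_singleton_and_continuousAt_iff
    (c := 1) Filter.univ_mem]
  constructor
  · intro v hv
    have hv1 : v ≠ 1 := hv.2
    have h1 : FF =ᶠ[𝓝 v] fun v => (v - 1) * riemannZeta v := by
      filter_upwards [isOpen_ne.mem_nhds hv1] with w hw
      exact FF_ne hw
    have h2 : DifferentiableAt ℂ (fun v => (v - 1) * riemannZeta v) v :=
      (differentiableAt_id.sub_const 1).mul (differentiableAt_riemannZeta hv1)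
    exact (h2.congr_of_eventuallyEq h1).differentiableWithinAt
  · unfold FF
    rw [continuousAt_update_same]
    exact riemannZeta_residue_one

theorem frac_int_le (v : ℂ) (hv : 0 < v.re) :
    ‖∫ u in Ioi (1 : ℝ), ((Int.fract u : ℝ) : ℂ) * (u : ℂ) ^ (-v - 1)‖ ≤ 1 / v.re := by
  have h1 : ∀ u ∈ Ioi (1 : ℝ), ‖((Int.fract u : ℝ) : ℂ) * (u : ℂ) ^ (-v - 1)‖ ≤ u ^ (-v.re - 1) := by
    intro u hu
    have hu0 : (0 : ℝ) < u := lt_trans zero_lt_one hu
    rw [norm_mul, Complex.norm_cpow_eq_rpow_re_of_pos hu0]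
    have h2 : ‖((Int.fract u : ℝ) : ℂ)‖ ≤ 1 := by
      rw [Complex.norm_real, Real.norm_of_nonneg (Int.fract_nonneg u)]
      exact (Int.fract_lt_one u).le
    have h3 : (-v - 1 : ℂ).re = -v.re - 1 := by simp
    rw [h3]
    calc ‖((Int.fract u : ℝ) : ℂ)‖ * u ^ (-v.re - 1) ≤ 1 * u ^ (-v.re - 1) :=
          mul_le_mul_of_nonneg_right h2 (by positivity)
      _ = _ := one_mul _
  have h4 : IntegrableOn (fun u : ℝ => u ^ (-v.re - 1)) (Ioi 1) :=
    integrableOn_Ioi_rpow_of_lt (by linarith) zero_lt_one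
  have h5 : ∫ u in Ioi (1 : ℝ), u ^ (-v.re - 1) = 1 / v.re := by
    rw [integral_Ioi_rpow_of_lt (by linarith) zero_lt_one]
    rw [Real.one_rpow]
    have : -v.re - 1 + 1 = -v.re := by ring
    rw [this, neg_div_neg_eq]
  rw [← h5]
  exact norm_integral_le_of_norm_le h4 ((ae_restrict_iff' measurableSet_Ioi).2
    (Filter.Eventually.of_forall h1))

theorem FF_eq (v : ℂ) (hv : 0 < v.re) (hv1 : v ≠ 1) : FF v = v - (v - 1) * v *
    ∫ u in Ioi (1 : ℝ), ((Int.fract u : ℝ) : ℂ) * (u : ℂ) ^ (-v - 1) := by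
  rw [FF_ne hv1, ZU.J_a1.zf_one v hv hv1]
  have : v - 1 ≠ 0 := sub_ne_zero.2 hv1
  field_simp
  ring

theorem FF_bound (σ0 : ℝ) (h0 : 0 < σ0) (v : ℂ) (hv : σ0 ≤ v.re) :
    ‖FF v‖ ≤ (1 + 1 / σ0) * (1 + ‖v‖) ^ 2 := by
  have hn := norm_nonneg v
  have hc : 0 < 1 / σ0 := by positivity
  by_cases hv1 : v = 1
  · rw [hv1]
    have : FF 1 = 1 := FF_one
    rw [this]
    simp only [norm_one]
    nlinarith
  · rw [FF_eq v (by linarith) hv1]
    have h1 := frac_int_le v (by linarith)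
    have h2 : 1 / v.re ≤ 1 / σ0 := one_div_le_one_div_of_le h0 hv
    have h3 : ‖v - 1‖ ≤ ‖v‖ + 1 := by
      have := norm_sub_le v 1
      simpa using this
    calc ‖v - (v - 1) * v * ∫ u in Ioi (1 : ℝ), ((Int.fract u : ℝ) : ℂ) * (u : ℂ) ^ (-v - 1)‖
        ≤ ‖v‖ + ‖(v - 1) * v * ∫ u in Ioi (1 : ℝ), ((Int.fract u : ℝ) : ℂ) * (u : ℂ) ^ (-v - 1)‖ :=
          norm_sub_le _ _
      _ = ‖v‖ + ‖v - 1‖ * ‖v‖ * ‖∫ u in Ioi (1 : ℝ), ((Int.fract u : ℝ) : ℂ) * (u : ℂ) ^ (-v - 1)‖ := by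
          rw [norm_mul, norm_mul]
      _ ≤ ‖v‖ + (‖v‖ + 1) * ‖v‖ * (1 / σ0) := by
          have := h1.trans h2
          gcongr
      _ ≤ (1 + 1 / σ0) * (1 + ‖v‖) ^ 2 := by nlinarith [mul_nonneg hn hc.le, mul_nonneg (mul_nonneg hn hn) hc.le]

lemma cont_line (σ : ℝ) {a b : ℝ} (h : σ ≠ 1 ∨ 0 < a) :
    ContinuousOn (fun t : ℝ => riemannZeta (σ + t * I)) (Icc a b) := by
  intro t ht
  have hne : (σ : ℂ) + t * I ≠ 1 := by
    intro h1
    have e1 := congrArg Complex.re h1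
    have e2 := congrArg Complex.im h1
    simp at e1 e2
    rcases h with h | h
    · exact h e1
    · have := ht.1
      linarith
  have h1 : ContinuousAt riemannZeta ((σ : ℂ) + t * I) := (differentiableAt_riemannZeta hne).continuousAt
  have h2 : ContinuousAt (fun t : ℝ => (σ : ℂ) + t * I) t := by fun_prop
  exact (ContinuousAt.comp (f := fun t : ℝ => (σ : ℂ) + t * I) h1 h2).continuousWithinAt

lemma conj_line (σ t : ℝ) : ‖riemannZeta (σ + ((-t : ℝ) : ℂ) * I)‖ = ‖riemannZeta (σ + t * I)‖ := by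
  have e : (σ : ℂ) + ((-t : ℝ) : ℂ) * I = (starRingEnd ℂ) (σ + t * I) := by
    apply Complex.ext <;> simp
  rw [e, riemannZeta_conj, Complex.norm_conj]

/-- from large `t` to `|t| ≥ 1` -/
lemma edge_of (σ μ : ℝ) (hμ : 0 ≤ μ) (T0 : ℝ) (hT : ∀ t : ℝ, T0 ≤ t →
    ‖riemannZeta (σ + t * I)‖ ≤ t ^ μ) :
    ∃ C : ℝ, ∀ t : ℝ, 1 ≤ |t| → ‖riemannZeta (σ + t * I)‖ ≤ C * |t| ^ μ := by
  obtain ⟨B, hB⟩ := isCompact_Icc.exists_bound_of_continuousOn (cont_line σ (a := 1) (b := max T0 1)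
    (Or.inr one_pos))
  have hpos : ∀ t : ℝ, 1 ≤ t → ‖riemannZeta (σ + t * I)‖ ≤ (|B| + 1) * t ^ μ := by
    intro t ht
    have h1 : 1 ≤ t ^ μ := Real.one_le_rpow ht hμ
    rcases le_or_gt T0 t with h2 | h2
    · refine (hT t h2).trans ?_
      have := abs_nonneg B
      nlinarith
    · have h3 := hB t ⟨ht, h2.le.trans (le_max_left _ _)⟩
      have := le_abs_self B
      have := abs_nonneg B
      nlinarith
  refine ⟨|B| + 1, fun t ht => ?_⟩
  rcases le_total 0 t with h1 | h1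
  · rw [abs_of_nonneg h1] at ht ⊢
    exact hpos t ht
  · rw [abs_of_nonpos h1] at ht ⊢
    have := hpos (-t) ht
    rwa [conj_line] at this

lemma zeta_two (s : ℂ) (hs : s.re = 2) : ‖riemannZeta s‖ ≤ 2 := by
  rw [zeta_eq_tsum_one_div_nat_add_one_cpow (by rw [hs]; norm_num)]
  have hterm : ∀ n : ℕ, ‖1 / ((n : ℂ) + 1) ^ s‖ ≤ 1 / ((n : ℝ) + 1) ^ 2 := by
    intro n
    have h1 : ((n : ℂ) + 1) = (((n : ℝ) + 1 : ℝ) : ℂ) := by push_cast; ring
    rw [norm_div, norm_one, h1, Complex.norm_cpow_eq_rpow_re_of_pos (by positivity), hs]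
    norm_num
  have hsum := hasSum_zeta_two
  have hs1 : HasSum (fun n : ℕ => 1 / ((n : ℝ) + 1) ^ 2) (Real.pi ^ 2 / 6) := by
    have := (hasSum_nat_add_iff' (f := fun n : ℕ => 1 / (n : ℝ) ^ 2) 1).2 hsum
    simpa using this
  refine (tsum_of_norm_bounded hs1 hterm).trans ?_
  have := Real.pi_lt_d2
  have := Real.pi_pos
  nlinarith

/-- the bound moves to the right -/
lemma plr (a μ : ℝ) (ha : 1 / 4 ≤ a) (ha1 : a < 1) (hμ : 0 ≤ μ) (C : ℝ)
    (hC : ∀ t : ℝ, 1 ≤ |t| → ‖riemannZeta (a + t * I)‖ ≤ C * |t| ^ μ) :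
    ∃ C' : ℝ, 0 < C' ∧ ∀ σ : ℝ, a ≤ σ → σ ≤ 2 → ∀ t : ℝ, 1 ≤ |t| →
      ‖riemannZeta (σ + t * I)‖ ≤ C' * |t| ^ μ := by
  obtain ⟨B, hB⟩ : ∃ B : ℝ, B = max (max C 2) 48 := ⟨_, rfl⟩
  have hB1 : C ≤ B := by rw [hB]; exact (le_max_left _ _).trans (le_max_left _ _)
  have hB2 : 2 ≤ B := by rw [hB]; exact (le_max_right _ _).trans (le_max_left _ _)
  have hB3 : 48 ≤ B := by rw [hB]; exact le_max_right _ _
  obtain ⟨f, hf⟩ : ∃ f : ℂ → ℂ, f = fun s => FF s * (s + 2) ^ ((-(1 + μ) : ℝ) : ℂ) := ⟨_, rfl⟩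
  have hslit : ∀ s : ℂ, 1 / 4 ≤ s.re → s + 2 ∈ slitPlane := by
    intro s hs
    left
    simp
    linarith
  have hn2 : ∀ s : ℂ, 1 / 4 ≤ s.re → 1 ≤ ‖s + 2‖ := by
    intro s hs
    have := Complex.re_le_norm (s + 2)
    simp at this
    linarith
  have hfn : ∀ s : ℂ, ‖f s‖ = ‖FF s‖ * ‖s + 2‖ ^ (-(1 + μ)) := by
    intro s
    rw [hf, norm_mul, Complex.norm_cpow_real]
  have hpl : ∀ s : ℂ, 1 / 4 ≤ s.re → ‖s + 2‖ ^ (-(1 + μ)) ≤ 1 := fun s hs =>
    Real.rpow_le_one_of_one_le_of_nonpos (hn2 s hs) (by linarith)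
  have hFFb : ∀ s : ℂ, 1 / 4 ≤ s.re → ‖FF s‖ ≤ 5 * (1 + ‖s‖) ^ 2 := by
    intro s hs
    have := FF_bound (1 / 4) (by norm_num) s hs
    norm_num at this ⊢
    exact this
  have hfd : ∀ s : ℂ, 1 / 4 ≤ s.re → DifferentiableAt ℂ f s := by
    intro s hs
    rw [hf]
    refine (FF_diff s).mul ?_
    exact (differentiableAt_id.add_const 2).cpow_const (hslit s hs)
  have key : ∀ s : ℂ, a ≤ s.re → s.re ≤ 2 → ‖f s‖ ≤ B := by
    intro s hs1 hs2
    refine PhragmenLindelof.vertical_strip (a := a) (b := 2) (C := B) ?_ ?_ ?_ ?_ hs1 hs2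
    · apply DifferentiableOn.diffContOnCl
      intro z hz
      have h1 : closure (re ⁻¹' Ioo a 2) ⊆ re ⁻¹' Icc a 2 := by
        apply closure_minimal
        · intro z hz; exact ⟨hz.1.le, hz.2.le⟩
        · exact isClosed_Icc.preimage Complex.continuous_re
      exact (hfd z (ha.trans (h1 hz).1)).differentiableWithinAt
    · refine ⟨1, ?_, 2, ?_⟩
      · rw [lt_div_iff₀ (by linarith)]
        linarith [Real.pi_gt_three]
      · apply Asymptotics.IsBigO.of_bound 45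
        apply Filter.mem_inf_of_right
        intro z hz
        have hz1 : 1 / 4 ≤ z.re := ha.trans hz.1.le
        have hz2 : z.re ≤ 2 := hz.2.le
        have h1 : ‖f z‖ ≤ 5 * (1 + ‖z‖) ^ 2 := by
          rw [hfn]
          calc ‖FF z‖ * ‖z + 2‖ ^ (-(1 + μ)) ≤ ‖FF z‖ * 1 :=
                mul_le_mul_of_nonneg_left (hpl z hz1) (norm_nonneg _)
            _ ≤ _ := by rw [mul_one]; exact hFFb z hz1
        have h2 : ‖z‖ ≤ 2 + |z.im| := by
          refine (Complex.norm_le_abs_re_add_abs_im z).trans ?_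
          rw [abs_of_nonneg (by linarith : (0 : ℝ) ≤ z.re)]
          linarith
        have h3 : 1 + |z.im| ≤ Real.exp |z.im| := by
          have := Real.add_one_le_exp |z.im|
          linarith
        have h0 := abs_nonneg z.im
        have h4 : (1 + ‖z‖) ^ 2 ≤ 9 * (Real.exp |z.im|) ^ 2 := by
          have h5 : 1 + ‖z‖ ≤ 3 * Real.exp |z.im| := by linarith
          calc (1 + ‖z‖) ^ 2 ≤ (3 * Real.exp |z.im|) ^ 2 := by
                apply pow_le_pow_left₀ (by positivity) h5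
            _ = _ := by ring
        have h6 : (Real.exp |z.im|) ^ 2 ≤ Real.exp (2 * Real.exp (1 * |z.im|)) := by
          rw [← Real.exp_nat_mul, one_mul]
          apply Real.exp_le_exp.2
          push_cast
          linarith
        rw [Set.mem_ofPred_eq, Real.norm_of_nonneg (Real.exp_pos _).le]
        linarith
    · intro z hz
      have hz0 : z.re = a := hz
      have hz1 : 1 / 4 ≤ z.re := by rw [hz0]; exact ha
      have hze : z = a + (z.im : ℂ) * I := by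
        apply Complex.ext <;> simp [hz0]
      rw [hfn]
      rcases le_or_gt 1 |z.im| with h1 | h1
      · have hne : z ≠ 1 := by
          intro h; rw [h] at hz0; simp at hz0; linarith
        have h2 : ‖z - 1‖ ≤ ‖z + 2‖ := by
          rw [← sq_le_sq₀ (norm_nonneg _) (norm_nonneg _), Complex.sq_norm, Complex.sq_norm,
            Complex.normSq_apply, Complex.normSq_apply]
          simp only [sub_re, add_re, sub_im, add_im, one_re, one_im, re_ofNat, im_ofNat, sub_zero, add_zero]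
          nlinarith
        have h3 : |z.im| ≤ ‖z + 2‖ := by
          have := abs_im_le_norm (z + 2)
          simpa using this
        have h4 := hC z.im h1
        rw [← hze] at h4
        have h5 : ‖FF z‖ ≤ ‖z + 2‖ * (B * ‖z + 2‖ ^ μ) := by
          rw [FF_ne hne, norm_mul]
          apply mul_le_mul h2 _ (norm_nonneg _) (norm_nonneg _)
          refine h4.trans ?_
          have : |z.im| ^ μ ≤ ‖z + 2‖ ^ μ := Real.rpow_le_rpow (abs_nonneg _) h3 hμ
          have h7 : 0 ≤ |z.im| ^ μ := by positivity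
          calc C * |z.im| ^ μ ≤ B * |z.im| ^ μ := mul_le_mul_of_nonneg_right hB1 h7
            _ ≤ _ := mul_le_mul_of_nonneg_left this (by linarith)
        have hp : 0 < ‖z + 2‖ := by linarith [hn2 z hz1]
        calc ‖FF z‖ * ‖z + 2‖ ^ (-(1 + μ)) ≤ ‖z + 2‖ * (B * ‖z + 2‖ ^ μ) * ‖z + 2‖ ^ (-(1 + μ)) :=
              mul_le_mul_of_nonneg_right h5 (by positivity)
          _ = B * (‖z + 2‖ ^ (1 : ℝ) * ‖z + 2‖ ^ μ * ‖z + 2‖ ^ (-(1 + μ))) := by
              rw [Real.rpow_one]; ring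
          _ = B := by
              rw [← Real.rpow_add hp, ← Real.rpow_add hp, add_neg_cancel, Real.rpow_zero, mul_one]
      · have h2 := hFFb z hz1
        have h3 : ‖z‖ ≤ 2 := by
          refine (Complex.norm_le_abs_re_add_abs_im z).trans ?_
          rw [hz0, abs_of_nonneg (by linarith : (0 : ℝ) ≤ a)]
          linarith
        have h4 := norm_nonneg z
        calc ‖FF z‖ * ‖z + 2‖ ^ (-(1 + μ)) ≤ ‖FF z‖ * 1 :=
              mul_le_mul_of_nonneg_left (hpl z hz1) (norm_nonneg _)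
          _ ≤ B := by nlinarith
    · intro z hz
      have hz0 : z.re = 2 := hz
      have hz1 : 1 / 4 ≤ z.re := by rw [hz0]; norm_num
      have hne : z ≠ 1 := by
        intro h; rw [h] at hz0; norm_num at hz0
      rw [hfn]
      have h2 : ‖z - 1‖ ≤ ‖z + 2‖ := by
        rw [← sq_le_sq₀ (norm_nonneg _) (norm_nonneg _), Complex.sq_norm, Complex.sq_norm,
          Complex.normSq_apply, Complex.normSq_apply]
        simp only [sub_re, add_re, sub_im, add_im, one_re, one_im, re_ofNat, im_ofNat, sub_zero, add_zero]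
        nlinarith
      have hp1 := hn2 z hz1
      have hp : 0 < ‖z + 2‖ := by linarith
      have h5 : ‖FF z‖ ≤ ‖z + 2‖ * B := by
        rw [FF_ne hne, norm_mul]
        exact mul_le_mul h2 ((zeta_two z hz0).trans hB2) (norm_nonneg _) (norm_nonneg _)
      have h6 : ‖z + 2‖ ^ (-(1 + μ)) ≤ ‖z + 2‖ ^ (-1 : ℝ) :=
        Real.rpow_le_rpow_of_exponent_le hp1 (by linarith)
      calc ‖FF z‖ * ‖z + 2‖ ^ (-(1 + μ)) ≤ ‖z + 2‖ * B * ‖z + 2‖ ^ (-1 : ℝ) :=
            mul_le_mul h5 h6 (by positivity) (by positivity)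
        _ = B := by
            rw [Real.rpow_neg_one]
            field_simp
  refine ⟨B * 5 ^ (1 + μ), by positivity, fun σ hσ1 hσ2 t ht => ?_⟩
  obtain ⟨s, hs⟩ : ∃ s : ℂ, s = σ + t * I := ⟨_, rfl⟩
  have hre : s.re = σ := by rw [hs]; simp
  have him : s.im = t := by rw [hs]; simp
  have hk := key s (by rw [hre]; exact hσ1) (by rw [hre]; linarith)
  have hne : s ≠ 1 := by
    intro h
    rw [h] at him
    simp at him
    rw [← him, abs_zero] at ht
    linarith
  rw [hfn, FF_ne hne, norm_mul] at hk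
  rw [← hs]
  have hp1 := hn2 s (by rw [hre]; linarith)
  have hp : 0 < ‖s + 2‖ := by linarith
  have htp : 0 < |t| := by linarith
  have h1 : |t| ≤ ‖s - 1‖ := by
    have := abs_im_le_norm (s - 1)
    simpa [him] using this
  have h2 : ‖s + 2‖ ≤ 5 * |t| := by
    refine (Complex.norm_le_abs_re_add_abs_im _).trans ?_
    have e1 : (s + 2).re = σ + 2 := by rw [add_re, hre]; simp
    have e2 : (s + 2).im = t := by rw [add_im, him]; simp
    rw [e1, e2, abs_of_nonneg (by linarith)]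
    linarith
  have h3 : ‖s - 1‖ * ‖riemannZeta s‖ ≤ B * ‖s + 2‖ ^ (1 + μ) := by
    rw [Real.rpow_neg hp.le, ← div_eq_mul_inv, div_le_iff₀ (by positivity)] at hk
    exact hk
  have h4 : ‖s + 2‖ ^ (1 + μ) ≤ (5 * |t|) ^ (1 + μ) := Real.rpow_le_rpow hp.le h2 (by linarith)
  rw [Real.mul_rpow (by norm_num) htp.le] at h4
  have h5 : |t| * ‖riemannZeta s‖ ≤ B * (5 ^ (1 + μ) * |t| ^ (1 + μ)) := by
    calc |t| * ‖riemannZeta s‖ ≤ ‖s - 1‖ * ‖riemannZeta s‖ := mul_le_mul_of_nonneg_right h1 (norm_nonneg _)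
      _ ≤ _ := h3.trans (mul_le_mul_of_nonneg_left h4 (by linarith))
  have h6 : |t| ^ (1 + μ) = |t| * |t| ^ μ := by rw [Real.rpow_add htp, Real.rpow_one]
  rw [h6] at h5
  have h7 : |t| * ‖riemannZeta s‖ ≤ |t| * (B * 5 ^ (1 + μ) * |t| ^ μ) := by
    refine h5.trans (le_of_eq ?_)
    ring
  exact le_of_mul_le_mul_left h7 htp


end

end Pool.Agent.R133.AF
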