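import Pool.Agent.R133.AF.Fin
import Pool.Agent.R133.AF.PL

open Complex Filter Topology Set Metric SG

namespace Pool.Agent.R133.AF

open H370 H370.Loc

/-- an analytic logarithm of `g / g c` with bounds -/
theorem exists_log {g : ℂ → ℂ} {c : ℂ} {r r1 B : ℝ} (hr1 : 0 < r1)
    (h1r : r1 < r) (hB : 0 ≤ B)
    (hg : AnalyticOnNhd ℂ g (closedBall c r)) (hg0 : ∀ z ∈ closedBall c r, g z ≠ 0)
    (hb : ∀ z ∈ closedBall c r, ‖g z‖ ≤ Real.exp B * ‖g c‖) :
    ∃ h : ℂ → ℂ, h c = 0 ∧ (∀ z ∈ ball c r, HasDerivAt h (logDeriv g z) z) ∧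
      (∀ z ∈ ball c r, ‖g z‖ = ‖g c‖ * Real.exp (h z).re) ∧
      ∀ z ∈ closedBall c r1, ‖h z‖ ≤ 2 * (B + 1) * r1 / (r - r1) := by
  have hr : 0 < r := hr1.trans h1r
  have hcr : c ∈ ball c r := mem_ball_self hr
  have hd : DifferentiableOn ℂ (logDeriv g) (ball c r) := by
    intro w hw
    have hw' := ball_subset_closedBall hw
    have h1 : AnalyticAt ℂ (logDeriv g) w := (hg w hw').deriv.div (hg w hw') (hg0 w hw')
    exact h1.differentiableAt.differentiableWithinAt
  obtain ⟨h, hhc, hh⟩ := hd.isExactOn_ball.with_val_at c 0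
  -- g = g c * exp h
  have hconst : ∀ w ∈ ball c r, g w * cexp (-h w) = g c := by
    intro w hw
    have hderiv : ∀ x ∈ ball c r, HasDerivAt (fun y => g y * cexp (-h y)) 0 x := by
      intro x hx
      have hx' := ball_subset_closedBall hx
      have e1 : HasDerivAt g (deriv g x) x := (hg x hx').differentiableAt.hasDerivAt
      have e2 : HasDerivAt (fun y => cexp (-h y)) (cexp (-h x) * (-(logDeriv g x))) x :=
        ((hh x hx).neg).cexp
      have e3 : HasDerivAt (fun y => g y * cexp (-h y))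
          (deriv g x * cexp (-h x) + g x * (cexp (-h x) * (-(logDeriv g x)))) x := e1.mul e2
      have e4 : deriv g x * cexp (-h x) + g x * (cexp (-h x) * (-(logDeriv g x))) = 0 := by
        have := hg0 x hx'
        rw [logDeriv_apply]
        field_simp
        ring
      rwa [e4] at e3
    have hcv : Convex ℝ (ball c r) := convex_ball c r
    have := hcv.is_const_of_fderivWithin_eq_zero (𝕜 := ℂ) (f := fun y => g y * cexp (-h y))
      (fun x hx => (hderiv x hx).differentiableAt.differentiableWithinAt)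
      (fun x hx => by
        have h5 := (hderiv x hx).hasFDerivAt.hasFDerivWithinAt (s := ball c r)
        rw [h5.fderivWithin (isOpen_ball.uniqueDiffWithinAt hx)]
        ext; simp) hw hcr
    simp only [hhc, neg_zero, Complex.exp_zero, mul_one] at this
    exact this
  have hgc : 0 < ‖g c‖ := norm_pos_iff.2 (hg0 c (mem_closedBall_self hr.le))
  have heq : ∀ w ∈ ball c r, ‖g w‖ = ‖g c‖ * Real.exp (h w).re := by
    intro w hw
    have h1 := hconst w hw
    have h2 : ‖g w‖ * Real.exp (-(h w).re) = ‖g c‖ := by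
      rw [← h1, norm_mul, Complex.norm_exp]
      simp
    rw [← h2, mul_assoc, ← Real.exp_add, neg_add_cancel, Real.exp_zero, mul_one]
  have hre : ∀ w ∈ ball c r, (h w).re ≤ B + 1 := by
    intro w hw
    have h2 := heq w hw
    have h3 := hb w (ball_subset_closedBall hw)
    rw [h2, mul_comm] at h3
    have h4 := le_of_mul_le_mul_right h3 hgc
    rw [Real.exp_le_exp] at h4
    linarith
  refine ⟨h, hhc, hh, heq, ?_⟩
  intro w hw
  have hw1 : ‖w - c‖ ≤ r1 := by rwa [mem_closedBall, dist_eq_norm] at hw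
  have hw2 : w - c ∈ ball (0 : ℂ) r := by rw [mem_ball_zero_iff]; linarith
  have hmap : ∀ x : ℂ, x ∈ ball (0 : ℂ) r → c + x ∈ ball c r := by
    intro x hx
    rw [mem_ball_zero_iff] at hx
    rw [mem_ball, dist_eq_norm, add_sub_cancel_left]
    exact hx
  have hbc := Complex.borelCaratheodory_zero (f := fun x => h (c + x)) (M := B + 1) (R := r)
    (z := w - c) (by linarith)
    (fun x hx => by
      have h1 := (hh (c + x) (hmap x hx)).differentiableAt
      have h2 : DifferentiableAt ℂ (fun y : ℂ => c + y) x := by fun_prop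
      exact (DifferentiableAt.comp (g := h) (f := fun y : ℂ => c + y) x h1 h2).differentiableWithinAt)
    (fun x hx => hre (c + x) (hmap x hx)) hr hw2 (by simp [hhc])
  simp only [add_sub_cancel] at hbc
  refine hbc.trans ?_
  have h6 : 0 < r - r1 := by linarith
  have h7 : r - r1 ≤ r - ‖w - c‖ := by linarith
  exact div_le_div₀ (by positivity) (by gcongr) h6 h7

/-- three circles, in the form needed -/
theorem three_circles {h : ℂ → ℂ} {c : ℂ} {ρ0 ρ1 R' a b : ℝ} (h0 : 0 < ρ0) (h01 : ρ0 < ρ1)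
    (h1 : ρ1 < R') (hd : ∀ z ∈ closedBall c R', DifferentiableAt ℂ h z)
    (ha : ∀ z ∈ closedBall c ρ0, ‖h z‖ ≤ a) (hb : ∀ z ∈ closedBall c R', ‖h z‖ ≤ b) :
    ‖h (c - ρ1)‖ ≤ a ^ (1 - (Real.log ρ1 - Real.log ρ0) / (Real.log R' - Real.log ρ0)) *
      b ^ ((Real.log ρ1 - Real.log ρ0) / (Real.log R' - Real.log ρ0)) := by
  have hρ1 : 0 < ρ1 := h0.trans h01
  have hR : 0 < R' := hρ1.trans h1
  have hlog1 : Real.log ρ0 < Real.log ρ1 := Real.log_lt_log h0 h01
  have hlog2 : Real.log ρ1 < Real.log R' := Real.log_lt_log hρ1 h1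
  set G : ℂ → ℂ := fun w => h (c + cexp w) with hG
  have hnorm : ∀ w : ℂ, w.re ≤ Real.log R' → c + cexp w ∈ closedBall c R' := by
    intro w hw
    rw [mem_closedBall, dist_eq_norm, add_sub_cancel_left, Complex.norm_exp]
    calc Real.exp w.re ≤ Real.exp (Real.log R') := Real.exp_le_exp.2 hw
      _ = R' := Real.exp_log hR
  have hGd : ∀ w : ℂ, w.re ≤ Real.log R' → DifferentiableAt ℂ G w := by
    intro w hw
    have e1 := hd _ (hnorm w hw)
    have e2 : DifferentiableAt ℂ (fun w : ℂ => c + cexp w) w := by fun_prop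
    exact DifferentiableAt.comp (g := h) (f := fun w : ℂ => c + cexp w) w e1 e2
  have key := Complex.HadamardThreeLines.norm_le_interp_of_mem_verticalClosedStrip' (f := G)
    (z := (Real.log ρ1 : ℂ) + Real.pi * I) (a := a) (b := b) (l := Real.log ρ0) (u := Real.log R')
    (by linarith) (by
      show ((Real.log ρ1 : ℂ) + Real.pi * I).re ∈ Icc _ _
      simp only [add_re, ofReal_re, mul_re, ofReal_im, I_re, I_im, mul_zero, mul_one, sub_zero,
        add_zero, zero_mul]
      exact ⟨hlog1.le, hlog2.le⟩)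
    (by
      apply DifferentiableOn.diffContOnCl
      intro w hw
      have h2 : closure (re ⁻¹' Ioo (Real.log ρ0) (Real.log R')) ⊆
          re ⁻¹' Icc (Real.log ρ0) (Real.log R') := by
        apply closure_minimal
        · intro z hz; exact ⟨hz.1.le, hz.2.le⟩
        · exact isClosed_Icc.preimage Complex.continuous_re
      exact (hGd w (h2 hw).2).differentiableWithinAt)
    (by
      refine ⟨b, ?_⟩
      rintro _ ⟨w, hw, rfl⟩
      exact hb _ (hnorm w hw.2))
    (by
      intro w hw
      have hw' : w.re = Real.log ρ0 := hw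
      apply ha
      rw [mem_closedBall, dist_eq_norm, add_sub_cancel_left, Complex.norm_exp, hw',
        Real.exp_log h0])
    (by
      intro w hw
      have hw' : w.re = Real.log R' := hw
      exact hb _ (hnorm w hw'.le))
  have e1 : c + cexp ((Real.log ρ1 : ℂ) + Real.pi * I) = c - ρ1 := by
    rw [Complex.exp_add, Complex.exp_pi_mul_I, ← Complex.ofReal_exp, Real.exp_log hρ1]
    ring
  have e2 : ((Real.log ρ1 : ℂ) + Real.pi * I).re = Real.log ρ1 := by simp
  rw [e2] at key
  simp only [hG, e1] at key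
  exact key

/-- if all zeros above `T` are on the line, then `ζ(1/2 + η + it) = O(t^ε)` -/
theorem right_lh {T : ℝ} (hT : Good T) (η ε : ℝ) (hη : 0 < η) (hη4 : η ≤ 1 / 4) (hε : 0 < ε) :
    ∃ t0 : ℝ, ∀ t : ℝ, t0 ≤ t → ‖riemannZeta (((1 / 2 + η : ℝ) : ℂ) + t * I)‖ ≤ t ^ ε := by
  obtain ⟨K0, hK0, hball⟩ := ball_data good_zeta
  obtain ⟨K1, hK1, hright⟩ := right_bound good_zeta (5 / 4) (by norm_num)
  set r : ℝ := 3 / 2 - η / 4 with hr
  set R' : ℝ := 3 / 2 - η / 2 with hR'
  set ρ1 : ℝ := 3 / 2 - η with hρ1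
  set θ : ℝ := (Real.log ρ1 - Real.log (3 / 4)) / (Real.log R' - Real.log (3 / 4)) with hθ
  have hl1 : Real.log (3 / 4) < Real.log ρ1 := Real.log_lt_log (by norm_num) (by linarith)
  have hl2 : Real.log ρ1 < Real.log R' := Real.log_lt_log (by linarith) (by linarith)
  have hθ1 : θ < 1 := by
    rw [hθ, div_lt_one (by linarith)]
    linarith
  have hθ0 : 0 ≤ θ := div_nonneg (by linarith) (by linarith)
  -- the constant
  set C2 : ℝ := 2 * (K0 + 1) * R' / (r - R') with hC2
  have hrR : 0 < r - R' := by rw [hr, hR']; linarith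
  have hC2pos : 0 < C2 := by
    have : 0 < R' := by linarith
    positivity
  have hlim : Tendsto (fun t : ℝ => Real.log t) atTop atTop := Real.tendsto_log_atTop
  have hsmall : ∀ᶠ t : ℝ in atTop,
      (K1 + 1) ^ (1 - θ) * (C2 * Real.log t) ^ θ + Real.log 2 ≤ ε * Real.log t := by
    have h1 : Tendsto (fun x : ℝ => x ^ (1 - θ)) atTop atTop := tendsto_rpow_atTop (by linarith)
    have h2 := (h1.comp hlim).eventually_ge_atTop (2 / ε * ((K1 + 1) ^ (1 - θ) * C2 ^ θ))
    have h3 := hlim.eventually_ge_atTop (2 / ε * Real.log 2)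
    filter_upwards [h2, h3, hlim.eventually_ge_atTop 1] with t g1 g2 g3
    have g0 : 0 < Real.log t := by linarith
    simp only [Function.comp_apply] at g1
    have e1 : (C2 * Real.log t) ^ θ = C2 ^ θ * Real.log t ^ θ :=
      Real.mul_rpow hC2pos.le g0.le
    have e2 : Real.log t ^ (1 - θ) * Real.log t ^ θ = Real.log t := by
      rw [← Real.rpow_add g0]
      simp
    have e3 : (K1 + 1) ^ (1 - θ) * C2 ^ θ ≤ ε / 2 * Real.log t ^ (1 - θ) := by
      have : (K1 + 1) ^ (1 - θ) * C2 ^ θ = ε / 2 * (2 / ε * ((K1 + 1) ^ (1 - θ) * C2 ^ θ)) := by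
        field_simp
      rw [this]
      gcongr
    have e4 : Real.log 2 ≤ ε / 2 * Real.log t := by
      have : Real.log 2 = ε / 2 * (2 / ε * Real.log 2) := by field_simp
      rw [this]
      gcongr
    have e5 : (K1 + 1) ^ (1 - θ) * (C2 * Real.log t) ^ θ ≤ ε / 2 * Real.log t := by
      rw [e1, ← mul_assoc]
      calc _ ≤ ε / 2 * Real.log t ^ (1 - θ) * Real.log t ^ θ := by
            apply mul_le_mul_of_nonneg_right e3
            positivity
        _ = _ := by rw [mul_assoc, e2]
    linarith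
  obtain ⟨t1, ht1⟩ := hsmall.exists_forall_of_atTop
  refine ⟨max t1 (max 3 (|T| + 2)), fun t ht => ?_⟩
  have htt1 : t1 ≤ t := (le_max_left _ _).trans ht
  have ht3 : 3 ≤ t := (le_max_left _ _).trans ((le_max_right _ _).trans ht)
  have htT : |T| + 2 ≤ t := (le_max_right _ _).trans ((le_max_right _ _).trans ht)
  have htT' : T + 2 ≤ t := by linarith [le_abs_self T]
  have ht0 : 0 < t := by linarith
  obtain ⟨M, hM1, hf, hc, hb, hMf, hlog0, hlog1⟩ := hball t ht3
  set c : ℂ := ⟨2, t⟩ with hcdef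
  have hlogt : 1 ≤ Real.log t := one_le_log ht3
  have hfc : 0 < ‖riemannZeta c‖ := norm_pos_iff.2 hc
  have hsub : closedBall c r ⊆ closedBall c 1.9 := closedBall_subset_closedBall (by
    rw [hr]; norm_num; linarith)
  have hcoord : ∀ z ∈ closedBall c r, 2 - r ≤ z.re ∧ z.re ≤ 2 + r ∧ t - 2 ≤ z.im := by
    intro z hz
    rw [mem_closedBall, dist_eq_norm] at hz
    have h1 := (Complex.abs_re_le_norm (z - c)).trans hz
    have h2 := (Complex.abs_im_le_norm (z - c)).trans hz
    simp only [sub_re, sub_im, hcdef] at h1 h2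
    rw [abs_le] at h1 h2
    refine ⟨by linarith [h1.1], by linarith [h1.2], by linarith [h2.1]⟩
  have hnz : ∀ z ∈ closedBall c r, riemannZeta z ≠ 0 := by
    intro z hz h0
    obtain ⟨e1, e2, e3⟩ := hcoord z hz
    have e4 : 0 < z.re := by rw [hr] at e1; linarith
    have e5 : z.re < 1 := by
      by_contra hre
      push Not at hre
      exact good_zeta.nzr z hre (by linarith) h0
    have e6 := (hT z h0 e4 e5 (by linarith)).1
    rw [hr] at e1
    linarith
  set B : ℝ := Real.log (M / ‖riemannZeta c‖) with hB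
  have hexpB : Real.exp B = M / ‖riemannZeta c‖ := Real.exp_log (by positivity)
  obtain ⟨h, hhc, hh, heq, hbound⟩ := exists_log (g := riemannZeta) (c := c) (r := r) (r1 := R')
    (B := B) (by rw [hR']; linarith) (by linarith) hlog0 (hf.mono hsub) hnz (by
      intro z hz
      rw [hexpB, div_mul_cancel₀ _ hfc.ne']
      exact hb z (hsub hz))
  have hin : ∀ z ∈ closedBall c (3 / 4), ‖h z‖ ≤ K1 + 1 := by
    intro z hz
    have hsub2 : closedBall c (3 / 4) ⊆ ball c r := closedBall_subset_ball (by rw [hr]; linarith)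
    have h1 := (convex_closedBall c (3 / 4)).norm_image_sub_le_of_norm_hasDerivWithin_le
      (f := h) (f' := fun z => logDeriv riemannZeta z) (C := K1)
      (fun x hx => (hh x (hsub2 hx)).hasDerivWithinAt) (fun x hx => by
        rw [mem_closedBall, dist_eq_norm] at hx
        have h1 := (Complex.abs_re_le_norm (x - c)).trans hx
        have h2 := (Complex.abs_im_le_norm (x - c)).trans hx
        simp only [sub_re, sub_im, hcdef] at h1 h2
        rw [abs_le] at h1 h2
        rw [logDeriv_apply]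
        exact hright x (by linarith [h1.1]) (by linarith [h2.1]))
      (mem_closedBall_self (by norm_num)) hz
    rw [hhc, sub_zero] at h1
    rw [mem_closedBall, dist_eq_norm] at hz
    have := norm_nonneg (z - c)
    nlinarith
  have hb2 : ∀ z ∈ closedBall c R', ‖h z‖ ≤ C2 * Real.log t := by
    intro z hz
    refine (hbound z hz).trans ?_
    rw [hC2, div_mul_eq_mul_div]
    apply div_le_div_of_nonneg_right _ hrR.le
    have e1 : B + 1 ≤ (K0 + 1) * Real.log t := by linarith
    have e2 : 0 < R' := by rw [hR']; linarith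
    nlinarith
  have h3c := three_circles (h := h) (c := c) (ρ0 := 3 / 4) (ρ1 := ρ1) (R' := R') (a := K1 + 1)
    (b := C2 * Real.log t) (by norm_num) (by rw [hρ1]; linarith) (by rw [hρ1, hR']; linarith)
    (fun z hz => (hh z (closedBall_subset_ball (by rw [hR', hr]; linarith) hz)).differentiableAt)
    hin hb2
  have hz : c - (ρ1 : ℂ) = ((1 / 2 + η : ℝ) : ℂ) + t * I := by
    apply Complex.ext
    · simp [hcdef, hρ1]; ring
    · simp [hcdef]
  rw [hz] at h3c
  have hmem : ((1 / 2 + η : ℝ) : ℂ) + t * I ∈ ball c r := by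
    rw [← hz, mem_ball, dist_eq_norm, sub_sub_cancel_left, norm_neg, Complex.norm_real,
      Real.norm_of_nonneg (by rw [hρ1]; linarith)]
    rw [hρ1, hr]
    linarith
  rw [heq _ hmem]
  have e1 : (h (((1 / 2 + η : ℝ) : ℂ) + t * I)).re ≤
      (K1 + 1) ^ (1 - θ) * (C2 * Real.log t) ^ θ := (Complex.re_le_norm _).trans h3c
  have e2 : ‖riemannZeta c‖ ≤ Real.exp (Real.log 2) := by
    rw [Real.exp_log (by norm_num)]
    exact zeta_two c rfl
  calc ‖riemannZeta c‖ * Real.exp (h (((1 / 2 + η : ℝ) : ℂ) + t * I)).re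
      ≤ Real.exp (Real.log 2) * Real.exp ((K1 + 1) ^ (1 - θ) * (C2 * Real.log t) ^ θ) := by
        gcongr
    _ = Real.exp ((K1 + 1) ^ (1 - θ) * (C2 * Real.log t) ^ θ + Real.log 2) := by
        rw [← Real.exp_add, add_comm]
    _ ≤ Real.exp (ε * Real.log t) := Real.exp_le_exp.2 (ht1 t htt1)
    _ = t ^ ε := by rw [Real.rpow_def_of_pos ht0, mul_comm]

end Pool.Agent.R133.AF
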