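import Pool.Agent.R133.AF.Loc3

open Complex Filter Topology Set Metric

namespace Pool.Agent.R133.AF

open H370 H370.Loc

theorem Pf_logDeriv_eq (s : Multiset ℂ) {z : ℂ} (h : ∀ ρ ∈ s, z ≠ ρ) :
    logDeriv (Pf s) z = (s.map (fun ρ => 1 / (z - ρ))).sum := by
  induction s using Multiset.induction_on with
  | empty =>
    have h0 : Pf 0 = fun _ => (1 : ℂ) := funext Pf_zero
    rw [h0]
    simp [logDeriv]
  | cons a s ih =>
    have ih' := ih fun ρ hρ => h ρ (Multiset.mem_cons_of_mem hρ)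
    have hza : z - a ≠ 0 := sub_ne_zero.2 (h a (Multiset.mem_cons_self a s))
    have hP : Pf s z ≠ 0 := Pf_ne_zero fun ρ hρ => h ρ (Multiset.mem_cons_of_mem hρ)
    have e0 : Pf (a ::ₘ s) = fun z => (z - a) * Pf s z := funext (Pf_cons a s)
    have e1 : logDeriv (fun z => (z - a) * Pf s z) z =
        logDeriv (fun z => z - a) z + logDeriv (Pf s) z :=
      logDeriv_mul z hza hP (differentiableAt_id.sub_const a) (Pf_diff s z)
    rw [e0, e1, ih', Multiset.map_cons, Multiset.sum_cons]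
    congr 1
    rw [logDeriv_apply]
    simp

/-- local formula for `ζ''/(2ζ')` at a simple zero -/
theorem local_formula1 {F : ℂ → ℂ} (hF : GoodL F) : ∃ K : ℝ, 0 < K ∧ ∀ t : ℝ, 3 ≤ t →
    ∀ a : ℂ, a ∈ closedBall (⟨2, t⟩ : ℂ) 1.5 → F a = 0 → deriv F a ≠ 0 →
    ∃ s : Multiset ℂ, (∀ ρ ∈ s, ρ ∈ closedBall (⟨2, t⟩ : ℂ) 1.8 ∧ F ρ = 0 ∧ ρ ≠ a) ∧
      (∀ z ∈ closedBall (⟨2, t⟩ : ℂ) 1.8, F z = 0 → z ≠ a → z ∈ s) ∧
      (Multiset.card s : ℝ) ≤ K * Real.log t ∧
      ‖deriv (deriv F) a / (2 * deriv F a) - (s.map (fun ρ => 1 / (a - ρ))).sum‖ ≤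
        K * Real.log t := by
  obtain ⟨K0, hK0, hball⟩ := ball_data hF
  set q : ℝ := Real.log (1.9 / 1.8) with hq
  have hq0 : 0 < q := Real.log_pos (by norm_num)
  set p : ℝ := Real.log (1.8 / (1.9 - 1.8)) with hp
  have hp0 : 0 ≤ p := Real.log_nonneg (by norm_num)
  refine ⟨K0 / q + 10 * (2 * (K0 + K0 / q * p + 1) * 1.7 / (1.8 - 1.7) / (1.7 - 1.6)),
    by have : 0 ≤ K0 / q * p := by positivity
       have : 0 < K0 / q := by positivity
       have : 0 < 10 * (2 * (K0 + K0 / q * p + 1) * 1.7 / (1.8 - 1.7) / (1.7 - 1.6)) := by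
         norm_num
         positivity
       linarith, fun t ht a ha hFa hFa' => ?_⟩
  obtain ⟨M, hM1, hf, hc, hb, hMf, hlog0, hlog1⟩ := hball t ht
  set c : ℂ := ⟨2, t⟩ with hcdef
  obtain ⟨s, g, hs, hg, hfg, hg0, hcard⟩ := extract (r := 1.8) (R := 1.9) (by norm_num)
    (by norm_num) hM1 hf hc hb
  have hlogt : 1 ≤ Real.log t := one_le_log ht
  have ha8 : a ∈ closedBall c 1.8 := closedBall_subset_closedBall (by norm_num) ha
  have ha9 : a ∈ closedBall c 1.9 := closedBall_subset_closedBall (by norm_num) ha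
  -- a is in s
  have hmem : ∀ z ∈ closedBall c 1.8, F z = 0 → z ∈ s := by
    intro z hz hz0
    by_contra hzs
    have h1 : Pf s z ≠ 0 := Pf_ne_zero fun ρ hρ he => hzs (he ▸ hρ)
    rw [hfg z] at hz0
    rcases mul_eq_zero.1 hz0 with h | h
    · exact h1 h
    · exact hg0 z hz h
  obtain ⟨s', hs'⟩ := Multiset.exists_cons_of_mem (hmem a ha8 hFa)
  have hfg' : ∀ z, F z = (z - a) * (Pf s' z * g z) := by
    intro z
    rw [hfg z, hs', Pf_cons]
    ring
  have hGan : AnalyticAt ℂ (fun z => Pf s' z * g z) a := ((Pf_diff s').analyticAt a).mul (hg a ha9)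
  have hT := taylor_three hGan hfg'
  have hGa : Pf s' a * g a ≠ 0 := by
    have := hT.1
    rw [← this]
    exact hFa'
  have has' : a ∉ s' := by
    intro h
    apply hGa
    obtain ⟨u, hu⟩ := Multiset.exists_cons_of_mem h
    rw [hu, Pf_cons]
    ring
  have hs'z : ∀ ρ ∈ s', ρ ≠ a := fun ρ hρ he => has' (he ▸ hρ)
  have hcard' : (Multiset.card s' : ℝ) ≤ (Multiset.card s : ℝ) := by
    rw [hs', Multiset.card_cons]
    push_cast
    linarith
  have hcardK : (Multiset.card s : ℝ) ≤ K0 / q * Real.log t := by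
    refine hcard.trans ?_
    rw [div_mul_eq_mul_div]
    exact div_le_div_of_nonneg_right hlog1 hq0.le
  -- bounds for g
  have hfc : 0 < ‖F c‖ := norm_pos_iff.2 hc
  set n := Multiset.card s with hn
  have hRr0 : (0 : ℝ) < 1.9 - 1.8 := by norm_num
  have hgsphere : ∀ w ∈ sphere c 1.9, ‖g w‖ ≤ M / (1.9 - 1.8) ^ n := by
    intro w hw
    have hwR := sphere_subset_closedBall hw
    have h1 : (1.9 - 1.8 : ℝ) ^ n ≤ ‖Pf s w‖ := Pf_norm_ge hRr0.le fun ρ hρ => by
      have h2 := (hs ρ hρ).1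
      rw [mem_closedBall, dist_eq_norm] at h2
      rw [mem_sphere, dist_eq_norm] at hw
      have h3 : ‖w - c‖ ≤ ‖w - ρ‖ + ‖ρ - c‖ := by
        calc ‖w - c‖ = ‖(w - ρ) + (ρ - c)‖ := by congr 1; ring
          _ ≤ _ := norm_add_le _ _
      linarith
    rw [le_div_iff₀ (by positivity)]
    calc ‖g w‖ * (1.9 - 1.8) ^ n ≤ ‖g w‖ * ‖Pf s w‖ :=
          mul_le_mul_of_nonneg_left h1 (norm_nonneg _)
      _ = ‖F w‖ := by rw [hfg w, norm_mul, mul_comm]
      _ ≤ M := hb w hwR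
  have hgball : ∀ w ∈ closedBall c 1.9, ‖g w‖ ≤ M / (1.9 - 1.8) ^ n := by
    intro w hw
    refine Complex.norm_le_of_forall_mem_frontier_norm_le (U := ball c 1.9) isBounded_ball ?_ ?_ ?_
    · apply DifferentiableOn.diffContOnCl
      rw [closure_ball c (by norm_num)]
      exact fun x hx => (hg x hx).differentiableAt.differentiableWithinAt
    · intro x hx
      rw [frontier_ball c (by norm_num)] at hx
      exact hgsphere x hx
    · rwa [closure_ball c (by norm_num)]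
  have hgc : ‖F c‖ / 1.8 ^ n ≤ ‖g c‖ := by
    rw [div_le_iff₀ (by positivity)]
    have h1 : ‖Pf s c‖ ≤ 1.8 ^ n := Pf_norm_le fun ρ hρ => by
      have h2 := (hs ρ hρ).1
      rw [mem_closedBall, dist_eq_norm, norm_sub_rev] at h2
      exact h2
    calc ‖F c‖ = ‖g c‖ * ‖Pf s c‖ := by rw [hfg c, norm_mul, mul_comm]
      _ ≤ ‖g c‖ * 1.8 ^ n := mul_le_mul_of_nonneg_left h1 (norm_nonneg _)
  set B : ℝ := Real.log (M / ‖F c‖) + n * Real.log (1.8 / (1.9 - 1.8)) with hB
  have hB0 : 0 ≤ B := by positivity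
  have hexpB : Real.exp B = M / ‖F c‖ * (1.8 / (1.9 - 1.8)) ^ n := by
    rw [hB, Real.exp_add, Real.exp_log (by positivity), Real.exp_nat_mul,
      Real.exp_log (by positivity)]
  have hgb : ∀ w ∈ closedBall c 1.8, ‖g w‖ ≤ Real.exp B * ‖g c‖ := by
    intro w hw
    refine (hgball w (closedBall_subset_closedBall (by norm_num) hw)).trans ?_
    rw [hexpB]
    calc M / (1.9 - 1.8) ^ n = M / ‖F c‖ * (1.8 / (1.9 - 1.8)) ^ n * (‖F c‖ / 1.8 ^ n) := by
          rw [div_pow]; field_simp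
      _ ≤ _ := mul_le_mul_of_nonneg_left hgc (by positivity)
  have hlg : ∀ z ∈ closedBall c 1.6, ‖logDeriv g z‖ ≤
      2 * (B + 1) * 1.7 / (1.8 - 1.7) / (1.7 - 1.6) := fun z hz =>
    logDeriv_zero_free (r1 := 1.7) (by norm_num) (by norm_num) (by norm_num) hB0
      (hg.mono (closedBall_subset_closedBall (by norm_num))) hg0 hgb hz
  have hBle : B + 1 ≤ (K0 + K0 / q * p + 1) * Real.log t := by
    have h1 : (n : ℝ) * p ≤ K0 / q * Real.log t * p := mul_le_mul_of_nonneg_right hcardK hp0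
    rw [hB]
    nlinarith
  have hPa : Pf s' a ≠ 0 := left_ne_zero_of_mul hGa
  have hga : g a ≠ 0 := hg0 a ha8
  have hld : deriv (deriv F) a / (2 * deriv F a) =
      (s'.map (fun ρ => 1 / (a - ρ))).sum + logDeriv g a := by
    rw [hT.1, hT.2.1]
    have e1 : logDeriv (fun z => Pf s' z * g z) a = logDeriv (Pf s') a + logDeriv g a :=
      logDeriv_mul a hPa hga (Pf_diff s' a) (hg a ha9).differentiableAt
    have e2 := Pf_logDeriv_eq s' (z := a) (fun ρ hρ he => hs'z ρ hρ he.symm)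
    rw [← e2, ← e1, logDeriv_apply]
    field_simp
  refine ⟨s', fun ρ hρ => ?_, fun z hz hz0 hza => ?_, ?_, ?_⟩
  · have h1 : ρ ∈ s := by rw [hs']; exact Multiset.mem_cons_of_mem hρ
    exact ⟨(hs ρ h1).1, (hs ρ h1).2, hs'z ρ hρ⟩
  · have h1 := hmem z hz hz0
    rw [hs', Multiset.mem_cons] at h1
    rcases h1 with h1 | h1
    · exact absurd h1 hza
    · exact h1
  · have h1 := hcard'.trans hcardK
    have h2 : 0 ≤ 10 * (2 * (K0 + K0 / q * p + 1) * 1.7 / (1.8 - 1.7) / (1.7 - 1.6)) *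
        Real.log t := by
      have : 0 ≤ K0 / q * p := by positivity
      have h3 : (0 : ℝ) ≤ 10 * (2 * (K0 + K0 / q * p + 1) * 1.7 / (1.8 - 1.7) / (1.7 - 1.6)) := by
        norm_num
        positivity
      positivity
    rw [add_mul]
    linarith
  · have e1 : deriv (deriv F) a / (2 * deriv F a) - (s'.map (fun ρ => 1 / (a - ρ))).sum =
        logDeriv g a := by
      rw [hld]; ring
    rw [e1]
    refine (hlg a (closedBall_subset_closedBall (by norm_num) ha)).trans ?_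
    have h1 : 2 * (B + 1) * 1.7 / (1.8 - 1.7) / (1.7 - 1.6) ≤
        10 * (2 * (K0 + K0 / q * p + 1) * 1.7 / (1.8 - 1.7) / (1.7 - 1.6)) * Real.log t := by
      norm_num
      nlinarith
    have h2 : 0 ≤ K0 / q * Real.log t := by positivity
    rw [add_mul]
    linarith

end Pool.Agent.R133.AF
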