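import Pool.Agent.R133.AF.Fin2
import Pool.Agent.R133.AF.LH
import Pool.Agent.H345R2.Chi

open Complex Filter Topology Set Metric SG

namespace Pool.Agent.R133.AF

theorem both_lh {T : ℝ} (hT : Good T) (ε : ℝ) (hε : 0 < ε) :
    ∃ η C : ℝ, 0 < η ∧ η ≤ 1 / 4 ∧ 0 < C ∧ ∀ σ t : ℝ, 1 / 2 - η ≤ σ → σ ≤ 2 → 1 ≤ t →
      ‖riemannZeta ((σ : ℂ) + t * I)‖ ≤ C * t ^ ε := by
  obtain ⟨η, hηdef⟩ : ∃ η : ℝ, η = min (ε / 4) (1 / 4) := ⟨_, rfl⟩
  have hη0 : 0 < η := by rw [hηdef]; exact lt_min (by linarith) (by norm_num)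
  have hη4 : η ≤ 1 / 4 := by rw [hηdef]; exact min_le_right _ _
  have hηε : η ≤ ε / 4 := by rw [hηdef]; exact min_le_left _ _
  obtain ⟨t0, ht0⟩ := right_lh hT η (ε / 4) hη0 hη4 (by linarith)
  obtain ⟨K, hK, hL⟩ := H345.Chi.XX_size
  have hlim : Tendsto (fun t : ℝ => t ^ (ε / 2)) atTop atTop := tendsto_rpow_atTop (by linarith)
  obtain ⟨t2, ht2⟩ := (hlim.eventually_ge_atTop (Real.exp K)).exists_forall_of_atTop
  have hleft : ∀ t : ℝ, max (max t0 t2) 1 ≤ t →
      ‖riemannZeta (((1 / 2 - η : ℝ) : ℂ) + t * I)‖ ≤ t ^ ε := by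
    intro t ht
    have g1 : t0 ≤ t := (le_max_left _ _).trans ((le_max_left _ _).trans ht)
    have g2 : t2 ≤ t := (le_max_right _ _).trans ((le_max_left _ _).trans ht)
    have g3 : 1 ≤ t := (le_max_right _ _).trans ht
    have g0 : 0 < t := by linarith
    set w : ℂ := ((1 / 2 + η : ℝ) : ℂ) + t * I with hw
    have hre : w.re = 1 / 2 + η := by rw [hw]; simp
    have him : w.im = t := by rw [hw]; simp
    have hw1 : w ≠ 1 := by
      intro h
      have : w.im = 0 := by rw [h]; simp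
      rw [him] at this
      linarith
    have hwn : ∀ n : ℕ, w ≠ -n := by
      intro n h
      have : w.im = 0 := by rw [h]; simp
      rw [him] at this
      linarith
    have e1 : (((1 / 2 - η : ℝ) : ℂ) + t * I) = (starRingEnd ℂ) (1 - w) := by
      apply Complex.ext
      · rw [Complex.conj_re, Complex.sub_re, hre]; simp; ring
      · rw [Complex.conj_im, Complex.sub_im, him]; simp
    rw [e1, riemannZeta_conj, RCLike.norm_conj, H345.zeta_fe w hwn hw1, norm_mul]
    have h2 := (hL w (by rw [hre]; linarith) (by rw [hre]; linarith) (by rw [him]; exact g3)).2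
    rw [him, hre] at h2
    have e2 : (1 / 2 + η - 1 / 2 : ℝ) = η := by ring
    rw [e2] at h2
    have h3 := ht0 t g1
    rw [← hw] at h3
    have h4 : t ^ η ≤ t ^ (ε / 4) := Real.rpow_le_rpow_of_exponent_le g3 hηε
    calc ‖H345.XX w‖ * ‖riemannZeta w‖ ≤ (Real.exp K * t ^ η) * t ^ (ε / 4) := by
          apply mul_le_mul h2 h3 (norm_nonneg _) (by positivity)
      _ ≤ (t ^ (ε / 2) * t ^ (ε / 4)) * t ^ (ε / 4) := by
          have := ht2 t g2
          gcongr
      _ = t ^ ε := by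
          rw [← Real.rpow_add g0, ← Real.rpow_add g0]
          congr 1
          ring
  obtain ⟨C, hC⟩ := edge_of (1 / 2 - η) ε hε.le _ hleft
  obtain ⟨C', hC', h⟩ := plr (1 / 2 - η) ε (by linarith) (by linarith) hε.le C hC
  refine ⟨η, C', hη0, hη4, hC', fun σ t h1 h2 h3 => ?_⟩
  have := h σ h1 h2 t (by rw [abs_of_nonneg (by linarith)]; exact h3)
  rwa [abs_of_nonneg (by linarith : (0 : ℝ) ≤ t)] at this

/-- bounds for the second and third derivative on the critical line -/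
theorem deriv_lh {T : ℝ} (hT : Good T) (ε : ℝ) (hε : 0 < ε) :
    ∃ C : ℝ, 1 ≤ C ∧ ∀ t : ℝ, 2 ≤ t →
      ‖deriv (deriv riemannZeta) ⟨1 / 2, t⟩‖ ≤ C * t ^ ε ∧
      ‖deriv (deriv (deriv riemannZeta)) ⟨1 / 2, t⟩‖ ≤ C * t ^ ε := by
  obtain ⟨η, C, hη, hη4, hC, h⟩ := both_lh hT ε hε
  have hbase : ∀ (n : ℕ) (t : ℝ), 2 ≤ t →
      ‖iteratedDeriv n riemannZeta ⟨1 / 2, t⟩‖ ≤ n.factorial * (C * (2 * t) ^ ε) / η ^ n := by
    intro n t ht
    have hcoord : ∀ z ∈ closedBall (⟨1 / 2, t⟩ : ℂ) η, 1 / 2 - η ≤ z.re ∧ z.re ≤ 2 ∧ 1 ≤ z.im ∧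
        z.im ≤ 2 * t := by
      intro z hz
      rw [mem_closedBall, dist_eq_norm] at hz
      have h1 := (Complex.abs_re_le_norm (z - ⟨1 / 2, t⟩)).trans hz
      have h2 := (Complex.abs_im_le_norm (z - ⟨1 / 2, t⟩)).trans hz
      simp only [sub_re, sub_im] at h1 h2
      rw [abs_le] at h1 h2
      exact ⟨by linarith [h1.1], by linarith [h1.2], by linarith [h2.1], by linarith [h2.2]⟩
    apply Complex.norm_iteratedDeriv_le_of_forall_mem_sphere_norm_le n hη
    · apply DifferentiableOn.diffContOnCl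
      rw [closure_ball _ hη.ne']
      intro z hz
      obtain ⟨h1, h2, h3, h4⟩ := hcoord z hz
      have hz1 : z ≠ 1 := by
        intro he
        rw [he] at h3
        simp at h3
        linarith
      exact (differentiableAt_riemannZeta hz1).differentiableWithinAt
    · intro z hz
      obtain ⟨h1, h2, h3, h4⟩ := hcoord z (sphere_subset_closedBall hz)
      have h5 := h z.re z.im h1 h2 h3
      rw [Complex.re_add_im] at h5
      refine h5.trans ?_
      have : z.im ^ ε ≤ (2 * t) ^ ε := Real.rpow_le_rpow (by linarith) h4 hε.le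
      gcongr
  have hη1 : η ^ 3 ≤ η ^ 2 := by nlinarith [pow_pos hη 2]
  refine ⟨max 1 (6 * (C * 2 ^ ε) / η ^ 3), le_max_left _ _, fun t ht => ?_⟩
  have ht0 : 0 < t := by linarith
  have e1 : (2 * t) ^ ε = 2 ^ ε * t ^ ε := Real.mul_rpow (by norm_num) ht0.le
  have hpos : 0 < C * (2 ^ ε * t ^ ε) := by positivity
  have hle : 6 * (C * (2 ^ ε * t ^ ε)) / η ^ 3 ≤ max 1 (6 * (C * 2 ^ ε) / η ^ 3) * t ^ ε := by
    calc 6 * (C * (2 ^ ε * t ^ ε)) / η ^ 3 = 6 * (C * 2 ^ ε) / η ^ 3 * t ^ ε := by ring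
      _ ≤ _ := mul_le_mul_of_nonneg_right (le_max_right _ _) (by positivity)
  constructor
  · have h1 := hbase 2 t ht
    have e2 : iteratedDeriv 2 riemannZeta = deriv (deriv riemannZeta) := by
      rw [iteratedDeriv_succ, iteratedDeriv_one]
    rw [e2, e1] at h1
    refine h1.trans (le_trans ?_ hle)
    have : ((Nat.factorial 2 : ℕ) : ℝ) = 2 := by norm_num [Nat.factorial]
    rw [this]
    apply div_le_div₀ (by positivity) (by linarith) (by positivity) hη1
  · have h1 := hbase 3 t ht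
    have e2 : iteratedDeriv 3 riemannZeta = deriv (deriv (deriv riemannZeta)) := by
      rw [iteratedDeriv_succ, iteratedDeriv_succ, iteratedDeriv_one]
    rw [e2, e1] at h1
    refine h1.trans (le_trans ?_ hle)
    have : ((Nat.factorial 3 : ℕ) : ℝ) = 6 := by norm_num [Nat.factorial]
    rw [this]

/-- growth of `1 / ζ'` -/
noncomputable def invLog (n : ℕ) : ℝ :=
  Real.posLog ‖deriv riemannZeta ⟨1 / 2, ord n⟩‖⁻¹ / Real.log n

theorem Sf_le {T : ℝ} (hT : Good T) (ε : ℝ) (hε : 0 < ε) :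
    ∀ᶠ n : ℕ in atTop, coefLog n ≤ invLog n + ε := by
  obtain ⟨C, hC1, h⟩ := deriv_lh hT (ε / 2) (by linarith)
  have hlim : Tendsto (fun n : ℕ => Real.log (n : ℝ)) atTop atTop :=
    Real.tendsto_log_atTop.comp tendsto_natCast_atTop_atTop
  filter_upwards [ord_le_two_mul, ord_tendsto.eventually_ge_atTop 2,
    hlim.eventually_ge_atTop (max 1 (2 / ε * (Real.log 2 + Real.log C + ε / 2 * Real.log 2))),
    eventually_ge_atTop 2] with n g1 g2 g3 g4
  have hl1 : 1 ≤ Real.log n := (le_max_left _ _).trans g3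
  have hl2 : 2 / ε * (Real.log 2 + Real.log C + ε / 2 * Real.log 2) ≤ Real.log n :=
    (le_max_right _ _).trans g3
  have hn0 : (0 : ℝ) < n := by
    have : (2 : ℝ) ≤ n := by exact_mod_cast g4
    linarith
  obtain ⟨h2, h3⟩ := h (ord n) g2
  set t := ord n with ht
  have ht0 : 0 < t := by linarith
  set d := ‖deriv riemannZeta ⟨1 / 2, t⟩‖ with hd
  set X := C * t ^ (ε / 2) with hX
  have hX1 : 1 ≤ X := by
    have : 1 ≤ t ^ (ε / 2) := Real.one_le_rpow (by linarith) (by linarith)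
    rw [hX]; nlinarith
  have hX0 : 0 < X := by linarith
  have hd0 : 0 ≤ d := norm_nonneg _
  set u := X * d⁻¹ with hu
  have hu0 : 0 ≤ u := by positivity
  have e1 : ‖Sf riemannZeta ⟨1 / 2, t⟩‖ ≤ u + u ^ 2 := by
    unfold Sf
    refine (norm_sub_le _ _).trans ?_
    apply add_le_add
    · rw [norm_div, norm_mul, hu, ← div_eq_mul_inv, ← hd]
      have e3 : ‖(3 : ℂ)‖ = 3 := by simp
      rw [e3]
      rcases hd0.eq_or_lt with h0 | h0
      · rw [← h0]; simp
      · apply div_le_div₀ hX0.le h3 h0 (by linarith)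
    · rw [norm_pow]
      apply pow_le_pow_left₀ (norm_nonneg _)
      rw [norm_div, norm_mul, hu, ← div_eq_mul_inv, ← hd]
      have e3 : ‖(2 : ℂ)‖ = 2 := by simp
      rw [e3]
      rcases hd0.eq_or_lt with h0 | h0
      · rw [← h0]; simp
      · apply div_le_div₀ hX0.le h2 h0 (by linarith)
  have e2 : u + u ^ 2 ≤ 2 * (max 1 u) ^ 2 := by
    have m1 : 1 ≤ max 1 u := le_max_left _ _
    have m2 : u ≤ max 1 u := le_max_right _ _
    nlinarith
  have e3 : Real.posLog ‖Sf riemannZeta ⟨1 / 2, t⟩‖ ≤ Real.log 2 + 2 * Real.posLog u := by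
    have m1 : 1 ≤ max 1 u := le_max_left _ _
    have m3 : 1 ≤ 2 * (max 1 u) ^ 2 := by nlinarith
    calc Real.posLog ‖Sf riemannZeta ⟨1 / 2, t⟩‖ ≤ Real.posLog (2 * (max 1 u) ^ 2) :=
          Real.posLog_le_posLog (norm_nonneg _) (e1.trans e2)
      _ = Real.log (2 * (max 1 u) ^ 2) := Real.posLog_eq_log (by
          rw [abs_of_nonneg (by linarith)]; exact m3)
      _ = Real.log 2 + 2 * Real.log (max 1 u) := by
          rw [Real.log_mul (by norm_num) (by positivity), Real.log_pow]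
          norm_num
      _ = _ := by rw [Real.posLog_eq_log_max_one hu0]
  have e4 : Real.posLog u ≤ Real.log X + Real.posLog d⁻¹ := by
    refine (Real.posLog_mul).trans (le_of_eq ?_)
    rw [Real.posLog_eq_log (x := X) (by rw [abs_of_nonneg hX0.le]; exact hX1)]
  have e5 : Real.log X ≤ Real.log C + ε / 2 * (Real.log 2 + Real.log n) := by
    rw [hX, Real.log_mul (by positivity) (by positivity), Real.log_rpow ht0]
    have : Real.log t ≤ Real.log (2 * n) := Real.log_le_log ht0 g1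
    rw [Real.log_mul (by norm_num) hn0.ne'] at this
    have h5 : ε / 2 * Real.log t ≤ ε / 2 * (Real.log 2 + Real.log n) :=
      mul_le_mul_of_nonneg_left this (by linarith)
    linarith
  have e6 : Real.log 2 + Real.log C + ε / 2 * Real.log 2 ≤ ε / 2 * Real.log n := by
    have : Real.log 2 + Real.log C + ε / 2 * Real.log 2 =
        ε / 2 * (2 / ε * (Real.log 2 + Real.log C + ε / 2 * Real.log 2)) := by field_simp
    rw [this]
    exact mul_le_mul_of_nonneg_left hl2 (by linarith)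
  have hlog2 : 0 ≤ Real.log 2 := Real.log_nonneg (by norm_num)
  unfold coefLog invLog
  rw [div_le_iff₀ (by linarith)]
  have e7 : (Real.posLog ‖deriv riemannZeta ⟨1 / 2, t⟩‖⁻¹ / Real.log n + ε) * (2 * Real.log n) =
      2 * Real.posLog d⁻¹ + 2 * ε * Real.log n := by
    rw [← hd]
    field_simp
  rw [← ht, e7]
  linarith

theorem main_low {T : ℝ} (hT : Good T) :
    - limsup (fun n => ((invLog n : ℝ) : EReal)) atTop ≤ liminf gapLog atTop := by
  rw [main_good hT, EReal.neg_le_neg_iff, ← EReal.le_of_forall_lt_iff_le]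
  intro z hz
  obtain ⟨y, hy1, hy2⟩ := EReal.exists_between_coe_real hz
  have hyz : y < z := by exact_mod_cast hy2
  have hev := eventually_lt_of_limsup_lt hy1
  refine limsup_le_of_le (by isBoundedDefault) ?_
  filter_upwards [hev, Sf_le hT (z - y) (by linarith)] with n h1 h2
  have h3 : invLog n < y := by exact_mod_cast h1
  have h4 : coefLog n ≤ z := by linarith
  exact_mod_cast h4

end Pool.Agent.R133.AF
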