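import Pool.Agent.R133.AF.Low
import Pool.Agent.R133.AF.Loc4

open Complex Filter Topology Set Metric SG

namespace Pool.Agent.R133.AF

theorem bounds1 {T : ℝ} (h : Good T) : ∃ K : ℝ, 0 < K ∧ ∀ᶠ n : ℕ in atTop,
    ∀ d : ℝ, 0 < d → d ≤ ord (n + 1) - ord n → d ≤ ord n - ord (n - 1) →
      ‖deriv (deriv riemannZeta) ⟨1 / 2, ord n⟩ / (2 * deriv riemannZeta ⟨1 / 2, ord n⟩)‖ ≤
        K * Real.log (ord n) * (1 + 1 / d) := by
  obtain ⟨K, hK, hloc⟩ := local_formula1 H370.good_zeta
  refine ⟨K, hK, ?_⟩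
  filter_upwards [ord_tendsto.eventually_ge_atTop (max 3 (T + 2)), eventually_ge_atTop 2]
    with n hn hn2
  set t := ord n with htdef
  have ht3 : 3 ≤ t := (le_max_left _ _).trans hn
  have htT : T + 2 ≤ t := (le_max_right _ _).trans hn
  have h1n : 1 ≤ n := by omega
  have hz0 : riemannZeta ⟨1 / 2, t⟩ = 0 := h.ord_zero h1n (by linarith)
  have hd0 : deriv riemannZeta ⟨1 / 2, t⟩ ≠ 0 :=
    h.deriv_ne hz0 (by norm_num) (by norm_num) (by simp; linarith) (by simp; linarith)
  have hlt : t < ord (n + 1) := h.ord_lt h1n (by linarith)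
  obtain ⟨s, hs1, hs2, hs3, hs4⟩ := hloc t ht3 ⟨1 / 2, t⟩ (a_mem t) hz0 hd0
  intro d hd0 hd1 hd2
  have h1 := msum_le s (fun ρ => 1 / ((⟨1 / 2, t⟩ : ℂ) - ρ)) (1 / d) (by
    intro ρ hρ
    obtain ⟨g1, g2, g3⟩ := hs1 ρ hρ
    obtain ⟨e1, e2, e3⟩ := in_strip ht3 g1 g2
    have e4 := (h ρ g2 e1 e2 (by linarith)).1
    have hu : ρ.im ≠ t := fun he => g3 (Complex.ext e4 he)
    rw [norm_div, norm_one]
    apply one_div_le_one_div_of_le hd0
    have h6 := Complex.abs_im_le_norm ((⟨1 / 2, t⟩ : ℂ) - ρ)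
    refine le_trans ?_ h6
    rw [Complex.sub_im]
    rcases lt_or_gt_of_ne hu with hlt' | hgt
    · have h5 : ρ.im ≤ ord (n - 1) := by
        by_contra hc
        push Not at hc
        have := no_between (n := n - 1) (by omega) g2 e1 e2 hc
        rw [Nat.sub_add_cancel h1n] at this
        linarith
      rw [abs_of_pos (by linarith)]
      linarith
    · have h5 := no_between (n := n) (by omega) g2 e1 e2 hgt
      rw [abs_of_neg (by linarith)]
      linarith)
  set X := (s.map (fun ρ => 1 / ((⟨1 / 2, t⟩ : ℂ) - ρ))).sum with hX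
  set Y := deriv (deriv riemannZeta) ⟨1 / 2, t⟩ / (2 * deriv riemannZeta ⟨1 / 2, t⟩) with hY
  have h2 : (Multiset.card s : ℝ) * (1 / d) ≤ K * Real.log t * (1 / d) :=
    mul_le_mul_of_nonneg_right hs3 (by positivity)
  calc ‖Y‖ = ‖(Y - X) + X‖ := by congr 1; ring
    _ ≤ ‖Y - X‖ + ‖X‖ := norm_add_le _ _
    _ ≤ K * Real.log t + K * Real.log t * (1 / d) := by linarith
    _ = _ := by ring

/-- growth of `ζ''/ζ'` -/
noncomputable def quotLog (n : ℕ) : ℝ :=
  Real.posLog ‖deriv (deriv riemannZeta) ⟨1 / 2, ord n⟩ / deriv riemannZeta ⟨1 / 2, ord n⟩‖ /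
    Real.log n

theorem main_up {T : ℝ} (h : Good T) :
    liminf gapLog atTop ≤ - limsup (fun n => ((quotLog n : ℝ) : EReal)) atTop := by
  obtain ⟨K, hK, hbd⟩ := bounds1 h
  have hlim : Tendsto (fun n : ℕ => Real.log (n : ℝ)) atTop atTop :=
    Real.tendsto_log_atTop.comp tendsto_natCast_atTop_atTop
  have hpos : ∀ᶠ n : ℕ in atTop, 0 < ord (n + 1) - ord n := by
    filter_upwards [ord_tendsto.eventually_ge_atTop T, eventually_ge_atTop 1] with n h1 h2
    have := h.ord_lt h2 h1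
    linarith
  have hlogord : ∀ᶠ n : ℕ in atTop, 0 ≤ Real.log (ord n) ∧
      Real.log (ord n) ≤ Real.log (2 * n) := by
    filter_upwards [ord_le_two_mul, ord_tendsto.eventually_ge_atTop 1] with n h1 h2
    exact ⟨Real.log_nonneg h2, Real.log_le_log (by linarith) h1⟩
  have hL : liminf gapLog atTop ≤ 0 := liminf_le_of_frequently_le' gapLog_freq
  have k1 : limsup (fun n => ((quotLog n : ℝ) : EReal)) atTop ≤ - liminf gapLog atTop := by
    rw [← EReal.le_of_forall_lt_iff_le]
    intro y hz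
    have hz' : ((-y : ℝ) : EReal) < liminf gapLog atTop := by
      rw [EReal.coe_neg]
      exact EReal.neg_lt_comm.1 hz
    obtain ⟨w, hw1, hw2⟩ := EReal.exists_between_coe_real hz'
    have hw0 : w < 0 := by
      have := hw2.trans_le hL
      exact_mod_cast this
    have hwz : -w < y := by
      have : -y < w := by exact_mod_cast hw1
      linarith
    obtain ⟨y', hy'def⟩ : ∃ y' : ℝ, y' = -w := ⟨_, rfl⟩
    have hy' : 0 < y' := by linarith
    have hyy : y' < y := by linarith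
    have ha := eventually_lt_of_lt_liminf hw2
    have ha' : ∀ᶠ n : ℕ in atTop, (n : ℝ) ^ (-y') ≤ ord (n + 1) - ord n := by
      filter_upwards [ha, hpos, hlim.eventually_ge_atTop 1, eventually_ge_atTop 1] with
        n g1 g2 g3 g4
      unfold gapLog at g1
      rw [if_neg g2.ne'] at g1
      have g5 : w < Real.log (ord (n + 1) - ord n) / Real.log n := by exact_mod_cast g1
      rw [lt_div_iff₀ (by linarith)] at g5
      have hn0 : (0 : ℝ) < n := by exact_mod_cast g4
      have g6 : w = -y' := by linarith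
      rw [g6, ← Real.log_rpow hn0] at g5
      exact (Real.log_le_log_iff (by positivity) g2).1 g5.le
    have ha'' : ∀ᶠ n : ℕ in atTop, ((n - 1 : ℕ) : ℝ) ^ (-y') ≤ ord (n - 1 + 1) - ord (n - 1) :=
      (tendsto_sub_atTop_nat 1).eventually ha'
    refine limsup_le_of_le (by isBoundedDefault) ?_
    filter_upwards [ha', ha'', hbd, hlogord,
      asym (2 * K) (y' / 2) (y / 2) (by linarith) (by linarith) (by linarith),
      hlim.eventually_ge_atTop 1, eventually_ge_atTop 2] with n g1 g2 g3 g4 g5 g6 g7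
    have hn0 : (0 : ℝ) < n := by
      have : (2 : ℝ) ≤ n := by exact_mod_cast g7
      linarith
    have e1 : n - 1 + 1 = n := by omega
    rw [e1] at g2
    have e2 : (n : ℝ) ^ (-y') ≤ ((n - 1 : ℕ) : ℝ) ^ (-y') := by
      apply Real.rpow_le_rpow_of_nonpos _ _ (by linarith)
      · have : 1 ≤ n - 1 := by omega
        exact_mod_cast this
      · exact_mod_cast Nat.sub_le n 1
    have e3 := g3 ((n : ℝ) ^ (-y')) (by positivity) g1 (e2.trans g2)
    have e4 : 1 / ((n : ℝ) ^ (-y')) = (n : ℝ) ^ (2 * (y' / 2)) := by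
      rw [one_div, ← Real.rpow_neg hn0.le]
      congr 1
      ring
    rw [e4] at e3
    have e5 : ‖deriv (deriv riemannZeta) ⟨1 / 2, ord n⟩ / deriv riemannZeta ⟨1 / 2, ord n⟩‖ ≤
        (n : ℝ) ^ (2 * (y / 2)) := by
      have e6 : deriv (deriv riemannZeta) ⟨1 / 2, ord n⟩ / deriv riemannZeta ⟨1 / 2, ord n⟩ =
          2 * (deriv (deriv riemannZeta) ⟨1 / 2, ord n⟩ /
            (2 * deriv riemannZeta ⟨1 / 2, ord n⟩)) := by
        ring
      rw [e6, norm_mul]
      have e7 : ‖(2 : ℂ)‖ = 2 := by simp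
      rw [e7]
      have hp : 0 < (n : ℝ) ^ (2 * (y' / 2)) := by positivity
      have h4 := g4.2
      have h5 : K * Real.log (ord n) * (1 + (n : ℝ) ^ (2 * (y' / 2))) ≤
          K * Real.log (2 * n) * (1 + (n : ℝ) ^ (2 * (y' / 2))) := by gcongr
      calc _ ≤ 2 * (K * Real.log (2 * n) * (1 + (n : ℝ) ^ (2 * (y' / 2)))) := by linarith
        _ = 2 * K * Real.log (2 * n) * (1 + (n : ℝ) ^ (2 * (y' / 2))) := by ring
        _ ≤ _ := g5
    have hn1 : (1 : ℝ) ≤ n := by
      have : (2 : ℝ) ≤ n := by exact_mod_cast g7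
      linarith
    have e6 := Real.posLog_le_posLog (norm_nonneg _) e5
    have e7 : 1 ≤ (n : ℝ) ^ (2 * (y / 2)) := Real.one_le_rpow hn1 (by linarith)
    rw [Real.posLog_eq_log (x := (n : ℝ) ^ (2 * (y / 2)))
      (by rw [abs_of_nonneg (by positivity)]; exact e7), Real.log_rpow hn0] at e6
    have e8 : quotLog n ≤ y := by
      unfold quotLog
      rw [div_le_iff₀ (by linarith)]
      linarith
    exact_mod_cast e8
  exact EReal.le_neg_of_le_neg k1

end Pool.Agent.R133.AF
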